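import Pool.Agent.Q107.GB.Gr

set_option autoImplicit false

/-!
# Sharpness, disjoint paths
-/

namespace Pool.Agent.Q107.GB

open Finset Pool.Agent.Y843.HS Pool.Agent.Q102.GG

lemma rs_card_eq {S : Finset ℤ} {M p : ℕ} (hM : ∀ c ∈ S, |c| ≤ M) (hp : 2 * M < p) :
    (rs S p).card = S.card := by
  unfold rs
  apply card_image_of_injOn
  intro a ha b hb hab
  have hpz : (0 : ℤ) < p := by exact_mod_cast (by omega : 0 < p)
  have w1 : (0 : ℤ) ≤ a % p := Int.emod_nonneg _ hpz.ne'
  have w2 : (0 : ℤ) ≤ b % p := Int.emod_nonneg _ hpz.ne'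
  have hab' : (a % (p : ℤ)).toNat = (b % (p : ℤ)).toNat := hab
  have w3 : a % (p : ℤ) = b % p := by omega
  have w4 : (p : ℤ) ∣ b - a := Int.ModEq.dvd w3
  have ha1 := abs_le.1 (hM a ha)
  have hb1 := abs_le.1 (hM b hb)
  have hpz2 : (2 * M : ℤ) < p := by exact_mod_cast hp
  have : b - a = 0 := by
    apply Int.eq_zero_of_abs_lt_dvd w4
    rw [abs_lt]
    constructor <;> linarith
  omega

lemma PP_eq {S : Finset ℤ} {M s y : ℕ} (hM : ∀ c ∈ S, |c| ≤ M) (hs : 2 * M ≤ s) :
    PP (rs S) s y = Pk S.card s y := by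
  unfold PP Pk
  apply prod_congr rfl
  intro p hp
  have h1 := (Pr_mem.1 hp).1.1
  rw [rs_card_eq hM (by omega)]

/-- upper bound for sifted sets of vertices -/
theorem upc (M k : ℕ) (hk : 1 ≤ k) (hk5 : k ≤ 5) : ∃ B : ℝ, 0 < B ∧ ∃ C : ℕ, 1 ≤ C ∧ ∀ (y n : ℕ)
    (S : Finset ℤ), 3 ≤ y → C * (y + 2) ^ C ≤ 2 * n - 6 → S.card = k → (∀ c ∈ S, |c| ≤ M) →
    ∀ T ⊆ Icc 1 (2 * n), (∀ x ∈ T, ∀ c ∈ S, ∀ p : ℕ, p.Prime → 5 ≤ p → p ≤ y → ¬ (p : ℤ) ∣ (x : ℤ) - c) →
      (T.card : ℝ) ≤ B * n / Real.log y ^ k := by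
  obtain ⟨s0, H⟩ := upS
  obtain ⟨C, hC, H⟩ := H (s0 + 2 * M + k + 5) (by omega)
  obtain ⟨B, hB, HB⟩ := Pk_le k (s0 + 2 * M + k + 5) (by omega)
  refine ⟨4 * B, by positivity, C, hC, ?_⟩
  intro y n S hy hX hSk hM T hT hTS
  have h1 := H y (2 * n) S (by omega) (by omega) T hT (by
    intro x hx c hc p hp
    obtain ⟨q1, q2⟩ := Pr_mem.1 hp
    exact hTS x hx c hc p q2 (by omega) q1.2)
  rw [PP_eq hM (by omega), hSk] at h1
  refine h1.trans ?_
  have h2 := HB y hy
  push_cast
  calc 2 * (2 * (n : ℝ)) * Pk k (s0 + 2 * M + k + 5) y ≤ 2 * (2 * (n : ℝ)) * (B / Real.log y ^ k) :=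
        mul_le_mul_of_nonneg_left h2 (by positivity)
    _ = 4 * B * n / Real.log y ^ k := by ring

/-- the few small vertices -/
lemma small {k y n C : ℕ} (hk : k ≤ 3) (hC : 5 ≤ C) (hy : 3 ≤ y) (hX : C * (y + 2) ^ C ≤ 2 * n - 6) (m : ℝ)
    (hm : 0 ≤ m) : m * (y + 1) ≤ 2 * m * n / Real.log y ^ k := by
  have hl1 : 1 ≤ Real.log y := by
    have h3 : (3 : ℝ) ≤ y := by exact_mod_cast hy
    have : Real.exp 1 ≤ y := by
      have := Real.exp_one_lt_d9
      linarith
    rw [Real.le_log_iff_exp_le (by linarith)]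
    exact this
  have hly : Real.log y ≤ y := Real.log_le_self (Nat.cast_nonneg y)
  rw [le_div_iff₀ (by positivity)]
  have h1 : Real.log y ^ k ≤ ((y : ℝ) + 2) ^ 3 := by
    calc Real.log y ^ k ≤ Real.log y ^ 3 := pow_le_pow_right₀ hl1 hk
      _ ≤ ((y : ℝ) + 2) ^ 3 := pow_le_pow_left₀ (by linarith) (by linarith) 3
  have h2 : ((y : ℝ) + 2) ^ 4 ≤ n := by
    have h3 : 2 * (y + 2) ^ 4 ≤ 2 * n - 6 := by
      refine le_trans ?_ hX
      exact Nat.mul_le_mul (by omega) (Nat.pow_le_pow_right (by omega) (by omega))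
    have h4 : (y + 2) ^ 4 ≤ n := by omega
    exact_mod_cast h4
  have hn : (0 : ℝ) ≤ n := Nat.cast_nonneg n
  calc m * (y + 1) * Real.log y ^ k ≤ m * (y + 2) * ((y : ℝ) + 2) ^ 3 := by gcongr; norm_num
    _ = m * ((y : ℝ) + 2) ^ 4 := by ring
    _ ≤ m * n := mul_le_mul_of_nonneg_left h2 hm
    _ ≤ 2 * m * n := by nlinarith [mul_nonneg hm hn]

/-- an edge, seen from far away -/
lemma avoid {lo n y a b : ℕ} (h : Rl lo n y a b) (ha : Even a) (hb : Even b) (hbig : a + 2 * y < b)
    (p : ℕ) (hp : p.Prime) (hp5 : 5 ≤ p) (hpy : p ≤ y) :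
    ¬ (p : ℤ) ∣ (b : ℤ) - a ∧ ¬ (p : ℤ) ∣ (b : ℤ) - (-a) := by
  obtain ⟨f1, f2⟩ := fact h ha hb p hp (by omega) hpy
  constructor
  · intro hd
    have h1 : (a : ℤ) % p = b % p := Int.modEq_iff_dvd.2 hd
    have h2 : a % p = b % p := by exact_mod_cast h1
    have := f2 h2
    omega
  · intro hd
    have e : (b : ℤ) - (-a) = ((a + b : ℕ) : ℤ) := by push_cast; ring
    rw [e] at hd
    have h2 : p ∣ a + b := by exact_mod_cast hd
    have := f1 (Nat.mod_eq_zero_of_dvd h2)
    omega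

/-- an edge of difference six -/
lemma avoid6 {lo n y b c : ℕ} (h : Rl lo n y b c) (hb : Even b) (hc : Even c) (hbig : 2 * y + 10 < b)
    (p : ℕ) (hp : p.Prime) (hp5 : 5 ≤ p) (hpy : p ≤ y) :
    (c = b + 6 → ¬ (p : ℤ) ∣ (b : ℤ) - (-3)) ∧ (b = c + 6 → ¬ (p : ℤ) ∣ (b : ℤ) - 3) := by
  obtain ⟨f1, -⟩ := fact h hb hc p hp (by omega) hpy
  constructor
  · intro hcb hd
    obtain ⟨k, hk⟩ := hd
    have h2 : (p : ℤ) ∣ ((b + c : ℕ) : ℤ) := ⟨2 * k, by rw [hcb]; push_cast; linarith⟩
    have h3 : p ∣ b + c := by exact_mod_cast h2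
    have := f1 (Nat.mod_eq_zero_of_dvd h3)
    omega
  · intro hcb hd
    obtain ⟨k, hk⟩ := hd
    have h2 : (p : ℤ) ∣ ((b + c : ℕ) : ℤ) := ⟨2 * k, by rw [hcb] at hk ⊢; push_cast at hk ⊢; linarith⟩
    have h3 : p ∣ b + c := by exact_mod_cast h2
    have := f1 (Nat.mod_eq_zero_of_dvd h3)
    omega

/-- the vertices, as a finset -/
noncomputable def uv (v0 n : ℕ) : Finset (VT v0 n) := by
  classical
  exact Finset.subtype _ (range (2 * n + 1))

lemma mem_uv {v0 n : ℕ} (a : VT v0 n) : a ∈ uv v0 n := by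
  classical
  unfold uv
  rw [mem_subtype, mem_range]
  have := a.2.2.2
  omega

/-- the numbers in `[1, 2 n]` which avoid the integers of `S` -/
noncomputable def TS (n y : ℕ) (S : Finset ℤ) : Finset ℕ := by
  classical
  exact (Icc 1 (2 * n)).filter (fun x : ℕ => ∀ c ∈ S, ∀ p : ℕ, p.Prime → 5 ≤ p → p ≤ y → ¬ (p : ℤ) ∣ (x : ℤ) - c)

lemma mem_TS {n y x : ℕ} {S : Finset ℤ} : x ∈ TS n y S ↔ (1 ≤ x ∧ x ≤ 2 * n) ∧
    ∀ c ∈ S, ∀ p : ℕ, p.Prime → 5 ≤ p → p ≤ y → ¬ (p : ℤ) ∣ (x : ℤ) - c := by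
  classical
  unfold TS
  rw [mem_filter, mem_Icc]

/-- some difference six edge at `b` -/
def Crs {lo v0 n y : ℕ} (b : VT v0 n) : Prop :=
  ∃ c, (SG lo v0 n y).Adj b c ∧ (b.1 = c.1 + 6 ∨ c.1 = b.1 + 6)

lemma cross_mem {lo v0 n y : ℕ} {a b : VT v0 n} (hab : (SG lo v0 n y).Adj a b)
    (hc : Crs (lo := lo) (y := y) b) :
    b.1 ∈ range (2 * y + a.1 + 11) ∪ (TS n y {(a.1 : ℤ), -(a.1 : ℤ), -3} ∪ TS n y {(a.1 : ℤ), -(a.1 : ℤ), 3}) := by
  rcases Nat.lt_or_ge b.1 (2 * y + a.1 + 11) with h | h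
  · exact mem_union_left _ (mem_range.2 h)
  · apply mem_union_right
    obtain ⟨c, hbc, h6⟩ := hc
    have hr : Rl lo n y a.1 b.1 := hab
    have hr2 : Rl lo n y b.1 c.1 := hbc
    have hbn := b.2.2.2
    rw [mem_union, mem_TS, mem_TS]
    have key := fun p hp hp5 hpy => avoid hr a.2.1 b.2.1 (by omega) p hp hp5 hpy
    have key6 := fun p hp hp5 hpy => avoid6 hr2 b.2.1 c.2.1 (by omega) p hp hp5 hpy
    rcases h6 with h6 | h6
    · right
      refine ⟨⟨by omega, hbn⟩, ?_⟩
      intro e he p hp hp5 hpy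
      rw [mem_insert, mem_insert, mem_singleton] at he
      rcases he with rfl | rfl | rfl
      · exact (key p hp hp5 hpy).1
      · exact (key p hp hp5 hpy).2
      · exact (key6 p hp hp5 hpy).2 h6
    · left
      refine ⟨⟨by omega, hbn⟩, ?_⟩
      intro e he p hp hp5 hpy
      rw [mem_insert, mem_insert, mem_singleton] at he
      rcases he with rfl | rfl | rfl
      · exact (key p hp hp5 hpy).1
      · exact (key p hp hp5 hpy).2
      · exact (key6 p hp hp5 hpy).1 h6

open Classical in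
/-- the set which increases the diameter -/
theorem cut3 : ∃ B : ℝ, 0 < B ∧ ∃ C : ℕ, 5 ≤ C ∧ ∀ lo v0 n y : ℕ, v0 ≤ 2 → 17 ≤ y → 226626 ≤ 2 * n →
    C * (y + 2) ^ C ≤ 2 * n - 6 →
    ∃ D : Finset (VT v0 n), (D.card : ℝ) ≤ B * n / Real.log y ^ 3 ∧
      7 ≤ ((SG lo v0 n y).induce {x | x ∉ D}).ediam := by
  obtain ⟨B, hB, C, hC, H⟩ := upc 226626 3 (by norm_num) (by norm_num)
  refine ⟨4 * B + 2 * 226700, by positivity, C + 5, by omega, ?_⟩
  intro lo v0 n y hv0 hy hn hX
  have hXC : C * (y + 2) ^ C ≤ 2 * n - 6 := by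
    refine le_trans ?_ hX
    exact Nat.mul_le_mul (by omega) (Nat.pow_le_pow_right (by omega) (by omega))
  set a : VT v0 n := ⟨87516, by decide, by omega, by omega⟩ with ha
  set d : VT v0 n := ⟨226626, by decide, by omega, by omega⟩ with hd
  set G := SG lo v0 n y with hG
  set D : Finset (VT v0 n) := (uv v0 n).filter (fun b => b ≠ a ∧ b ≠ d ∧
    (((G.Adj a b ∨ G.Adj d b) ∧ Crs (lo := lo) (y := y) b) ∨ b.1 ≤ 6)) with hD
  have hDm : ∀ b, (b ≠ a ∧ b ≠ d ∧
    (((G.Adj a b ∨ G.Adj d b) ∧ Crs (lo := lo) (y := y) b) ∨ b.1 ≤ 6)) → b ∈ D :=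
    fun b h => mem_filter.2 ⟨mem_uv _, h⟩
  refine ⟨D, ?_, ?_⟩
  · -- the size
    set U : Finset ℕ := range (2 * y + 226626 + 11) ∪
      ((TS n y {(87516 : ℤ), -87516, -3} ∪ TS n y {(87516 : ℤ), -87516, 3}) ∪
      (TS n y {(226626 : ℤ), -226626, -3} ∪ TS n y {(226626 : ℤ), -226626, 3})) with hU
    have hsub : D.image (fun b => b.1) ⊆ U := by
      intro z hz
      rw [mem_image] at hz
      obtain ⟨b, hb, rfl⟩ := hz
      rw [hD, mem_filter] at hb
      obtain ⟨-, -, -, h1⟩ := hb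
      rw [hU]
      rcases h1 with ⟨h1 | h1, h2⟩ | h1
      · have h3 := cross_mem h1 h2
        rw [mem_union] at h3
        rcases h3 with h3 | h3
        · rw [mem_range] at h3
          apply mem_union_left
          rw [mem_range]
          have : a.1 = 87516 := rfl
          omega
        · exact mem_union_right _ (mem_union_left _ h3)
      · have h3 := cross_mem h1 h2
        rw [mem_union] at h3
        rcases h3 with h3 | h3
        · rw [mem_range] at h3
          apply mem_union_left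
          rw [mem_range]
          have : d.1 = 226626 := rfl
          omega
        · exact mem_union_right _ (mem_union_right _ h3)
      · apply mem_union_left
        rw [mem_range]
        omega
    have hc1 : D.card = (D.image (fun b => b.1)).card :=
      (card_image_of_injective _ Subtype.val_injective).symm
    have hT : ∀ S : Finset ℤ, S.card = 3 → (∀ c ∈ S, |c| ≤ ((226626 : ℕ) : ℤ)) →
        ((TS n y S).card : ℝ) ≤ B * n / Real.log y ^ 3 := by
      intro S hS hM
      exact H y n S (by omega) hXC hS hM (TS n y S) (fun x hx => by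
        rw [mem_Icc]; exact (mem_TS.1 hx).1) (fun x hx => (mem_TS.1 hx).2)
    have t1 := hT {(87516 : ℤ), -87516, -3} (by decide) (by decide)
    have t2 := hT {(87516 : ℤ), -87516, 3} (by decide) (by decide)
    have t3 := hT {(226626 : ℤ), -226626, -3} (by decide) (by decide)
    have t4 := hT {(226626 : ℤ), -226626, 3} (by decide) (by decide)
    have hUc : (U.card : ℝ) ≤ (2 * y + 226626 + 11) + (((TS n y {(87516 : ℤ), -87516, -3}).card +
        (TS n y {(87516 : ℤ), -87516, 3}).card) + ((TS n y {(226626 : ℤ), -226626, -3}).card +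
        (TS n y {(226626 : ℤ), -226626, 3}).card)) := by
      have := (card_union_le (range (2 * y + 226626 + 11)) ((TS n y {(87516 : ℤ), -87516, -3} ∪
        TS n y {(87516 : ℤ), -87516, 3}) ∪ (TS n y {(226626 : ℤ), -226626, -3} ∪
        TS n y {(226626 : ℤ), -226626, 3}))).trans (Nat.add_le_add_left ((card_union_le _ _).trans
          (Nat.add_le_add (card_union_le _ _) (card_union_le _ _))) _)
      rw [card_range] at this
      exact_mod_cast this
    have hsm := small (k := 3) (y := y) (n := n) (C := C + 5) le_rfl (by omega) (by omega) hX 226700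
      (by norm_num)
    have hDU : (D.card : ℝ) ≤ U.card := by
      rw [hc1]
      exact_mod_cast card_le_card hsub
    have hy0 : (17 : ℝ) ≤ y := by exact_mod_cast hy
    have e1 : (4 * B + 2 * 226700) * n / Real.log y ^ 3 = 4 * (B * n / Real.log y ^ 3) +
        2 * 226700 * n / Real.log y ^ 3 := by ring
    rw [e1]
    linarith
  · -- the distance
    have haK : a ∈ {x | x ∉ D} := by
      intro h
      rw [hD, mem_filter] at h
      exact h.2.1 rfl
    have hdK : d ∈ {x | x ∉ D} := by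
      intro h
      rw [hD, mem_filter] at h
      exact h.2.2.1 rfl
    refine le_trans ?_ (SimpleGraph.edist_le_ediam (u := (⟨a, haK⟩ : {x | x ∉ D})) (v := ⟨d, hdK⟩))
    rw [SimpleGraph.edist]
    refine le_iInf fun w => ?_
    have ha1 : a.1 = 87516 := rfl
    have hd1 : d.1 = 226626 := rfl
    have hRa : Ra a.1 := by rw [ha1]; unfold Ra; norm_num
    have hRd : Rd d.1 := by rw [hd1]; unfold Rd; norm_num
    have h5 : 5 ≤ w.length :=
      (lower lo v0 n y hy a d hRa hRd (w.map (SimpleGraph.Embedding.induce {x | x ∉ D}).toHom)).trans_eq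
        (SimpleGraph.Walk.length_map _ _)
    have pp : ∀ u v : {x | x ∉ D}, (G.induce {x | x ∉ D}).Adj u v → (u.1.1 + v.1.1) % 4 = 2 :=
      fun u v h => par h u.1.2.1 v.1.2.1
    have f3 : ∀ u v : {x | x ∉ D}, (G.induce {x | x ∉ D}).Adj u v →
        ((u.1.1 + v.1.1) % 3 = 0 → u.1.1 + v.1.1 = 2 * 3) ∧
        (u.1.1 % 3 = v.1.1 % 3 → u.1.1 = v.1.1 + 2 * 3 ∨ v.1.1 = u.1.1 + 2 * 3) :=
      fun u v h => fact h u.1.2.1 v.1.2.1 3 (by norm_num) (by norm_num) (by omega)
    have hbig : ∀ u : {x | x ∉ D}, 6 < u.1.1 := by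
      intro u
      by_contra h
      refine u.2 (hDm _ ⟨?_, ?_, Or.inr (by omega)⟩)
      · rintro hua
        rw [hua] at h
        omega
      · rintro hua
        rw [hua] at h
        omega
    have hno : ∀ u x : {x | x ∉ D}, (u.1 = a ∨ u.1 = d) → (G.induce {x | x ∉ D}).Adj u x →
        ∀ z : {x | x ∉ D}, (G.induce {x | x ∉ D}).Adj x z → z.1.1 % 3 = 0 := by
      intro u x hu hux z hxz
      have hu3 : u.1.1 % 3 = 0 := by
        rcases hu with h | h
        · rw [h, ha1]
        · rw [h, hd1]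
      have b1 := hbig u
      have b2 := hbig x
      have b3 := hbig z
      have q1 := f3 u x hux
      have hx3 : x.1.1 % 3 ≠ 0 := by
        intro h
        have := q1.1 (by omega)
        omega
      by_contra hz3
      have q2 := f3 x z hxz
      have q3 : ¬ (x.1.1 + z.1.1) % 3 = 0 := by
        intro h
        have := q2.1 h
        omega
      have q4 := q2.2 (by omega)
      refine x.2 (hDm _ ⟨?_, ?_, Or.inl ⟨?_, z.1, hxz, ?_⟩⟩)
      · intro h
        rw [h] at hx3
        exact hx3 (by rw [ha1])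
      · intro h
        rw [h] at hx3
        exact hx3 (by rw [hd1])
      · rcases hu with h | h
        · left
          rw [← h]
          exact hux
        · right
          rw [← h]
          exact hux
      · omega
    have h7 : 7 ≤ w.length := by
      by_contra hlt
      generalize hk : w.length = k at hlt h5
      have hcase : k = 5 ∨ k = 6 := by omega
      rcases hcase with rfl | rfl
      · obtain ⟨x1, e1, w1, hw1⟩ := walk_succ w hk
        obtain ⟨x2, e2, w2, hw2⟩ := walk_succ w1 hw1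
        obtain ⟨x3, e3, w3, hw3⟩ := walk_succ w2 hw2
        obtain ⟨x4, e4, w4, hw4⟩ := walk_succ w3 hw3
        obtain ⟨x5, e5, w5, hw5⟩ := walk_succ w4 hw4
        have := SimpleGraph.Walk.eq_of_length_eq_zero hw5
        subst this
        have z2 := hno _ x1 (Or.inl rfl) e1 x2 e2
        have z3 := hno _ x4 (Or.inr rfl) e5.symm x3 e4.symm
        have := (f3 _ _ e3).1 (by omega)
        have := hbig x2
        omega
      · obtain ⟨x1, e1, w1, hw1⟩ := walk_succ w hk
        obtain ⟨x2, e2, w2, hw2⟩ := walk_succ w1 hw1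
        obtain ⟨x3, e3, w3, hw3⟩ := walk_succ w2 hw2
        obtain ⟨x4, e4, w4, hw4⟩ := walk_succ w3 hw3
        obtain ⟨x5, e5, w5, hw5⟩ := walk_succ w4 hw4
        obtain ⟨x6, e6, w6, hw6⟩ := walk_succ w5 hw5
        have := SimpleGraph.Walk.eq_of_length_eq_zero hw6
        subst this
        have := pp _ _ e1
        have := pp _ _ e2
        have := pp _ _ e3
        have := pp _ _ e4
        have := pp _ _ e5
        have := pp _ _ e6
        simp only [ha1, hd1] at *
        omega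
    exact_mod_cast h7

open Classical in
/-- the neighbours of the vertex two -/
theorem cut2 : ∃ B : ℝ, 0 < B ∧ ∃ C : ℕ, 5 ≤ C ∧ ∀ lo v0 n y : ℕ, v0 ≤ 2 → 17 ≤ y →
    C * (y + 2) ^ C ≤ 2 * n - 6 →
    ∃ D : Finset (VT v0 n), (D.card : ℝ) ≤ B * n / Real.log y ^ 2 ∧
      ¬ ((SG lo v0 n y).induce {x | x ∉ D}).Connected := by
  obtain ⟨B, hB, C, hC, H⟩ := upc 2 2 (by norm_num) (by norm_num)
  refine ⟨B + 2 * 4, by positivity, C + 5, by omega, ?_⟩
  intro lo v0 n y hv0 hy hX
  have hXC : C * (y + 2) ^ C ≤ 2 * n - 6 := by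
    refine le_trans ?_ hX
    exact Nat.mul_le_mul (by omega) (Nat.pow_le_pow_right (by omega) (by omega))
  have hn6 : 6 < 2 * n := by
    have h5 : 0 < (C + 5) * (y + 2) ^ (C + 5) := by positivity
    omega
  set a : VT v0 n := ⟨2, by decide, by omega, by omega⟩ with ha
  set d : VT v0 n := ⟨6, by decide, by omega, by omega⟩ with hd
  set G := SG lo v0 n y with hG
  set D : Finset (VT v0 n) := (uv v0 n).filter (fun b => G.Adj a b) with hD
  refine ⟨D, ?_, ?_⟩
  · set U : Finset ℕ := range (2 * y + 3) ∪ TS n y {(2 : ℤ), -2} with hU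
    have hsub : D.image (fun b => b.1) ⊆ U := by
      intro z hz
      rw [mem_image] at hz
      obtain ⟨b, hb, rfl⟩ := hz
      rw [hD, mem_filter] at hb
      have h1 : Rl lo n y a.1 b.1 := hb.2
      have ha1 : a.1 = 2 := rfl
      rw [hU]
      rcases Nat.lt_or_ge b.1 (2 * y + 3) with h | h
      · exact mem_union_left _ (mem_range.2 h)
      · apply mem_union_right
        have hbn := b.2.2.2
        rw [mem_TS]
        refine ⟨⟨by omega, hbn⟩, ?_⟩
        have key := fun p hp hp5 hpy => avoid h1 a.2.1 b.2.1 (by omega) p hp hp5 hpy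
        intro e he p hp hp5 hpy
        rw [mem_insert, mem_singleton] at he
        rcases he with rfl | rfl
        · exact (key p hp hp5 hpy).1
        · exact (key p hp hp5 hpy).2
    have hc1 : D.card = (D.image (fun b => b.1)).card :=
      (card_image_of_injective _ Subtype.val_injective).symm
    have hT := H y n {(2 : ℤ), -2} (by omega) hXC (by decide) (by decide) (TS n y {(2 : ℤ), -2})
      (fun x hx => by rw [mem_Icc]; exact (mem_TS.1 hx).1) (fun x hx => (mem_TS.1 hx).2)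
    have hUc : (U.card : ℝ) ≤ (2 * y + 3) + (TS n y {(2 : ℤ), -2}).card := by
      have := card_union_le (range (2 * y + 3)) (TS n y {(2 : ℤ), -2})
      rw [card_range] at this
      exact_mod_cast this
    have hsm := small (k := 2) (y := y) (n := n) (C := C + 5) (by norm_num) (by omega) (by omega) hX 4
      (by norm_num)
    have hDU : (D.card : ℝ) ≤ U.card := by
      rw [hc1]
      exact_mod_cast card_le_card hsub
    have hy0 : (17 : ℝ) ≤ y := by exact_mod_cast hy
    have e1 : (B + 2 * 4) * n / Real.log y ^ 2 = B * n / Real.log y ^ 2 +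
        2 * 4 * n / Real.log y ^ 2 := by ring
    rw [e1]
    linarith
  · intro hconn
    have haK : a ∈ {x | x ∉ D} := by
      intro h
      rw [hD, mem_filter] at h
      exact h.2.1 rfl
    have hdK : d ∈ {x | x ∉ D} := by
      intro h
      rw [hD, mem_filter] at h
      have := par h.2 a.2.1 d.2.1
      revert this
      show (2 + 6) % 4 = 2 → False
      norm_num
    obtain ⟨w⟩ := hconn.preconnected ⟨a, haK⟩ ⟨d, hdK⟩
    have hk : w.length ≠ 0 := by
      intro h
      have h1 := SimpleGraph.Walk.eq_of_length_eq_zero h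
      have h2 : a = d := congrArg Subtype.val h1
      have h3 : (2 : ℕ) = 6 := congrArg Subtype.val h2
      omega
    obtain ⟨k, hk'⟩ : ∃ k, w.length = k + 1 := ⟨w.length - 1, by omega⟩
    obtain ⟨x, h1, -⟩ := walk_succ w hk'
    have hx : x.1 ∈ (uv v0 n).filter (fun b => G.Adj a b) := mem_filter.2 ⟨mem_uv _, h1⟩
    exact x.2 hx

end Pool.Agent.Q107.GB
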