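import Pool.Agent.Q107.GB.Fin

set_option autoImplicit false

/-!
# The theorem for the Goldbach graphs with respect to the small primes
-/

namespace Pool.Agent.Q107.GB

open Finset Pool.Agent.Y843.HS Pool.Agent.Q102.GG

open Classical in
/-- greedy choice of disjoint paths -/
lemma greedy {V : Type} (G : SimpleGraph V) (u v : V) (m r : ℕ)
    (H : ∀ D : Finset V, D.card ≤ m → ∀ (hu : u ∈ {x | x ∉ D}) (hv : v ∈ {x | x ∉ D}),
      Wi (G.induce {x | x ∉ D}) r ⟨u, hu⟩ ⟨v, hv⟩) (k : ℕ) (hk : k * (r + 1) ≤ m) :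
    ∃ P : Fin k → G.Path u v, (∀ i, (P i).1.length ≤ r) ∧
      ∀ i j, i ≠ j → ∀ x, x ∈ (P i).1.support → x ∈ (P j).1.support → x = u ∨ x = v := by
  induction k with
  | zero => exact ⟨fun i => i.elim0, fun i => i.elim0, fun i => i.elim0⟩
  | succ k ih =>
    obtain ⟨P, hP1, hP2⟩ := ih (by nlinarith)
    set D : Finset V := (univ.biUnion (fun i => (P i).1.support.toFinset)) \ {u, v} with hD
    have hDc : D.card ≤ m := by
      calc D.card ≤ (univ.biUnion (fun i => (P i).1.support.toFinset)).card :=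
            card_le_card sdiff_subset
        _ ≤ ∑ i : Fin k, ((P i).1.support.toFinset).card := card_biUnion_le
        _ ≤ ∑ _i : Fin k, (r + 1) := by
            apply sum_le_sum
            intro i _
            refine (List.toFinset_card_le _).trans ?_
            rw [SimpleGraph.Walk.length_support]
            have := hP1 i
            omega
        _ = k * (r + 1) := by simp
        _ ≤ m := by nlinarith
    have hu : u ∈ {x | x ∉ D} := by
      intro h
      rw [hD, mem_sdiff] at h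
      exact h.2 (mem_insert_self _ _)
    have hv : v ∈ {x | x ∉ D} := by
      intro h
      rw [hD, mem_sdiff] at h
      exact h.2 (mem_insert_of_mem (mem_singleton_self _))
    obtain ⟨w, hw⟩ := H D hDc hu hv
    set w' : G.Walk u v := w.map (SimpleGraph.Embedding.induce {x | x ∉ D}).toHom with hw'
    have hlen : w'.length = w.length := SimpleGraph.Walk.length_map _ _
    have hsup : ∀ x ∈ w'.support, x ∉ D := by
      intro x hx
      have h1 : w'.support = w.support.map _ := SimpleGraph.Walk.support_map _ _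
      rw [h1, List.mem_map] at hx
      obtain ⟨z, -, rfl⟩ := hx
      exact z.2
    set Q : G.Path u v := w'.toPath with hQ
    have hQl : Q.1.length ≤ r := (SimpleGraph.Walk.length_bypass_le w').trans (by omega)
    have hQs : ∀ x ∈ Q.1.support, x ∉ D := fun x hx =>
      hsup x (SimpleGraph.Walk.support_bypass_subset w' hx)
    have hQP : ∀ i x, x ∈ Q.1.support → x ∈ (P i).1.support → x = u ∨ x = v := by
      intro i x h1 h2
      by_contra hcon
      push Not at hcon
      apply hQs x h1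
      rw [hD, mem_sdiff, mem_biUnion, mem_insert, mem_singleton]
      exact ⟨⟨i, mem_univ _, List.mem_toFinset.2 h2⟩, by tauto⟩
    refine ⟨Fin.cons Q P, ?_, ?_⟩
    · intro i
      refine Fin.cases ?_ (fun i => ?_) i
      · exact hQl
      · exact hP1 i
    · intro i j
      refine Fin.cases ?_ (fun i => ?_) i <;> refine Fin.cases ?_ (fun j => ?_) j
      · intro h
        exact absurd rfl h
      · intro _ x h1 h2
        exact hQP j x h1 h2
      · intro _ x h1 h2
        exact hQP i x h2 h1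
      · intro h x h1 h2
        exact hP2 i j (fun h' => h (by rw [h'])) x h1 h2

lemma free {v0 n : ℕ} (hv0 : v0 ≤ 2) (base : ℕ) (hb1 : 2 ≤ base) (hb2 : base ≤ 1021020)
    (hb3 : base % 2 = 0) (D : Finset (VT v0 n)) (hD : D.card < 2 * n / 1021020) :
    ∃ a : VT v0 n, a ∉ D ∧ ∃ i, a.1 = base + 1021020 * i := by
  classical
  by_contra hcon
  push Not at hcon
  have hsub : (range (2 * n / 1021020)).image (fun i => base + 1021020 * i) ⊆ D.image (fun a => a.1) := by
    intro z hz
    rw [mem_image] at hz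
    obtain ⟨i, hi, rfl⟩ := hz
    rw [mem_range] at hi
    have h1 : base + 1021020 * i ≤ 2 * n := by
      have := Nat.mul_div_le (2 * n) 1021020
      omega
    have h2 : Even (base + 1021020 * i) := by
      rw [Nat.even_iff]
      omega
    have h3 : (⟨base + 1021020 * i, h2, by omega, h1⟩ : VT v0 n) ∈ D := by
      by_contra h
      exact hcon _ h i rfl
    exact mem_image_of_mem _ h3
  have h4 := card_le_card hsub
  rw [card_image_of_injective _ (fun a b hab => by
    have : base + 1021020 * a = base + 1021020 * b := hab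
    omega), card_range] at h4
  have h5 : (D.image (fun a => a.1)).card ≤ D.card := card_image_le
  omega

lemma rng {C n y : ℕ} (hC : 1 ≤ C) (hn : (C * 2 ^ C) ^ 2 + 6 ≤ n) (hy : 17 ≤ y)
    (h : (y : ℝ) ≤ (n : ℝ) ^ (1 / (2 * (C : ℝ)))) : C * (y + 2) ^ C ≤ 2 * n - 6 := by
  have hCr : (0 : ℝ) < C := by exact_mod_cast hC
  have h1 : (y : ℝ) ^ (2 * C) ≤ n := by
    calc (y : ℝ) ^ (2 * C) ≤ ((n : ℝ) ^ (1 / (2 * (C : ℝ)))) ^ (2 * C) := by gcongr
      _ = (n : ℝ) ^ (1 / (2 * (C : ℝ)) * ((2 * C : ℕ) : ℝ)) := by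
          rw [Real.rpow_mul_natCast (Nat.cast_nonneg n)]
      _ = n := by
          rw [show (1 / (2 * (C : ℝ)) * ((2 * C : ℕ) : ℝ)) = 1 by push_cast; field_simp, Real.rpow_one]
  have h2 : y ^ (2 * C) ≤ n := by exact_mod_cast h1
  have h3 : (y ^ C) ^ 2 ≤ n := by rw [← pow_mul, mul_comm C 2]; exact h2
  have h4 : (y + 2) ^ C ≤ (2 * y) ^ C := Nat.pow_le_pow_left (by omega) C
  have h5 : C * (y + 2) ^ C ≤ (C * 2 ^ C) * y ^ C := by
    calc C * (y + 2) ^ C ≤ C * (2 * y) ^ C := Nat.mul_le_mul_left _ h4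
      _ = (C * 2 ^ C) * y ^ C := by rw [mul_pow]; ring
  have h6 : ((C * 2 ^ C) * y ^ C) ^ 2 ≤ n ^ 2 := by
    rw [mul_pow, sq n]
    exact Nat.mul_le_mul (by omega) h3
  have h7 : (C * 2 ^ C) * y ^ C ≤ n := by
    by_contra hlt
    push Not at hlt
    have := Nat.pow_lt_pow_left hlt (n := 2) (by norm_num)
    omega
  omega

/-- **the theorem** -/
theorem main : ∃ c : ℝ, 0 < c ∧ ∃ B : ℝ, 0 < B ∧ ∃ N : ℕ, ∀ n y lo v0 : ℕ, N ≤ n → 17 ≤ y →
    (y : ℝ) ≤ (n : ℝ) ^ c → lo ≤ 3 → v0 ≤ 2 →
    (∀ D : Finset (VT v0 n), (D.card : ℝ) ≤ c * n / Real.log y ^ 3 →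
      ((SG lo v0 n y).induce {x | x ∉ D}).ediam = 5) ∧
    (∀ D : Finset (VT v0 n), (D.card : ℝ) ≤ c * n / Real.log y ^ 2 →
      ((SG lo v0 n y).induce {x | x ∉ D}).Connected ∧
      ((SG lo v0 n y).induce {x | x ∉ D}).ediam ≤ 7) ∧
    (∃ D : Finset (VT v0 n), (D.card : ℝ) ≤ B * n / Real.log y ^ 3 ∧
      7 ≤ ((SG lo v0 n y).induce {x | x ∉ D}).ediam) ∧
    (∃ D : Finset (VT v0 n), (D.card : ℝ) ≤ B * n / Real.log y ^ 2 ∧
      ¬ ((SG lo v0 n y).induce {x | x ∉ D}).Connected) ∧
    (∀ (u v : VT v0 n) (k : ℕ), (k : ℝ) ≤ c * n / Real.log y ^ 2 →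
      ∃ P : Fin k → (SG lo v0 n y).Path u v, (∀ i, (P i).1.length ≤ 7) ∧
        ∀ i j, i ≠ j → ∀ x, x ∈ (P i).1.support → x ∈ (P j).1.support → x = u ∨ x = v) := by
  classical
  obtain ⟨s, hs, ε, hε, C1, hC1, hrob⟩ := robust
  obtain ⟨B3, hB3, C3, hC3, hcut3⟩ := cut3
  obtain ⟨B2, hB2, C2, hC2, hcut2⟩ := cut2
  obtain ⟨c3, hc3, hP3⟩ := Pk_ge 3
  obtain ⟨c2, hc2, hP2⟩ := Pk_ge 2
  set C : ℕ := C1 + C2 + C3 with hC
  have hCpos : (0 : ℝ) < C := by exact_mod_cast (by omega : 0 < C)
  set c : ℝ := min (1 / (2 * (C : ℝ))) (min (ε * c2 / 16) (min (ε * c3 / 16) (1 / 2042040))) with hc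
  have hc0 : 0 < c := lt_min (by positivity) (lt_min (by positivity) (lt_min (by positivity) (by norm_num)))
  have hca : c ≤ 1 / (2 * (C : ℝ)) := min_le_left _ _
  have hcb : c ≤ ε * c2 / 16 := (min_le_right _ _).trans (min_le_left _ _)
  have hcc : c ≤ ε * c3 / 16 := (min_le_right _ _).trans ((min_le_right _ _).trans (min_le_left _ _))
  have hcd : c ≤ 1 / 2042040 := (min_le_right _ _).trans ((min_le_right _ _).trans (min_le_right _ _))
  refine ⟨c, hc0, B3 + B2, by positivity, (C * 2 ^ C) ^ 2 + 6 + 1021020, ?_⟩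
  intro n y lo v0 hn hy hyn hlo hv0
  have hn1 : 1 ≤ n := by omega
  have hn1R : (1 : ℝ) ≤ n := by exact_mod_cast hn1
  have hX : C * (y + 2) ^ C ≤ 2 * n - 6 := by
    apply rng (by omega) (by omega) hy
    refine hyn.trans ?_
    exact Real.rpow_le_rpow_of_exponent_le hn1R hca
  have hXi : ∀ i : ℕ, i ≤ C → i * (y + 2) ^ i ≤ 2 * n - 6 := by
    intro i hi
    refine le_trans ?_ hX
    exact Nat.mul_le_mul hi (Nat.pow_le_pow_right (by omega) hi)
  have hl1 : 1 ≤ Real.log y := by
    have h3 : (17 : ℝ) ≤ y := by exact_mod_cast hy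
    have : Real.exp 1 ≤ y := by
      have := Real.exp_one_lt_d9
      linarith
    rw [Real.le_log_iff_exp_le (by linarith)]
    exact this
  have hXn : (n : ℝ) ≤ ((2 * n - 6 : ℕ) : ℝ) := by exact_mod_cast (by omega : n ≤ 2 * n - 6)
  -- from sets of vertices to sets of numbers
  have img : ∀ D : Finset (VT v0 n), ((D.image (fun a => a.1)).card : ℝ) ≤ D.card := by
    intro D
    exact_mod_cast card_image_le
  have hKE : ∀ (D : Finset (VT v0 n)) (x : VT v0 n), x.1 ∉ D.image (fun a => a.1) → x ∈ {x | x ∉ D} := by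
    intro D x hx h
    exact hx (mem_image_of_mem _ h)
  have two : ∀ D : Finset (VT v0 n), (D.card : ℝ) ≤ 16 * (c * n / Real.log y ^ 2) →
      ∀ u v : {x | x ∉ D}, Wi ((SG lo v0 n y).induce {x | x ∉ D}) 7 u v := by
    intro D hD
    apply (hrob lo v0 n y hlo hv0 (hXi C1 (by omega)) {x | x ∉ D} (D.image (fun a => a.1)) (hKE D)).1
    refine (img D).trans (hD.trans ?_)
    have h1 := hP2 s y (by omega) (by omega)
    calc 16 * (c * n / Real.log y ^ 2) ≤ 16 * ((ε * c2 / 16) * n / Real.log y ^ 2) := by gcongr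
      _ = ε * n * (c2 / Real.log y ^ 2) := by ring
      _ ≤ ε * ((2 * n - 6 : ℕ) : ℝ) * Pk 2 s y := by
          apply mul_le_mul _ h1 (by positivity) (by positivity)
          exact mul_le_mul_of_nonneg_left hXn hε.le
  have small1 : ∀ (D : Finset (VT v0 n)), (D.card : ℝ) ≤ c * n → D.card < 2 * n / 1021020 := by
    intro D hD
    have h1 : (D.card : ℝ) ≤ 1 / 2042040 * n := hD.trans (mul_le_mul_of_nonneg_right hcd (by linarith))
    have h2 : 2042040 * (D.card : ℝ) ≤ n := by linarith
    have h3 : 2042040 * D.card ≤ n := by exact_mod_cast h2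
    omega
  have k2 : c * n / Real.log y ^ 2 ≤ c * n := by
    apply div_le_self (by positivity)
    exact one_le_pow₀ hl1
  have k3 : c * n / Real.log y ^ 3 ≤ c * n := by
    apply div_le_self (by positivity)
    exact one_le_pow₀ hl1
  refine ⟨?_, ?_, ?_, ?_, ?_⟩
  · intro D hD
    have hw : ∀ u v : {x | x ∉ D}, Wi ((SG lo v0 n y).induce {x | x ∉ D}) 5 u v := by
      apply (hrob lo v0 n y hlo hv0 (hXi C1 (by omega)) {x | x ∉ D} (D.image (fun a => a.1)) (hKE D)).2
      refine (img D).trans (hD.trans ?_)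
      have h1 := hP3 s y (by omega) (by omega)
      calc c * n / Real.log y ^ 3 ≤ (ε * c3 / 16) * n / Real.log y ^ 3 := by gcongr
        _ ≤ ε * c3 * n / Real.log y ^ 3 := by
            gcongr
            have : 0 ≤ ε * c3 := by positivity
            linarith
        _ = ε * n * (c3 / Real.log y ^ 3) := by ring
        _ ≤ ε * ((2 * n - 6 : ℕ) : ℝ) * Pk 3 s y := by
            apply mul_le_mul _ h1 (by positivity) (by positivity)
            exact mul_le_mul_of_nonneg_left hXn hε.le
    apply le_antisymm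
    · rw [SimpleGraph.ediam_le_iff]
      intro a b
      obtain ⟨w, hw⟩ := hw a b
      refine (SimpleGraph.edist_le w).trans ?_
      exact_mod_cast hw
    · have hDs := small1 D (hD.trans k3)
      obtain ⟨a, haD, i, hai⟩ := free hv0 87516 (by norm_num) (by norm_num) (by norm_num) D hDs
      obtain ⟨d, hdD, j, hdj⟩ := free hv0 226626 (by norm_num) (by norm_num) (by norm_num) D hDs
      have haK : a ∈ {x | x ∉ D} := haD
      have hdK : d ∈ {x | x ∉ D} := hdD
      refine le_trans ?_ (SimpleGraph.edist_le_ediam (u := (⟨a, haK⟩ : {x | x ∉ D})) (v := ⟨d, hdK⟩))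
      rw [SimpleGraph.edist]
      refine le_iInf fun w => ?_
      have hRa : Ra a.1 := by
        rw [hai]
        unfold Ra
        refine ⟨by omega, by omega, by omega, by omega, by omega, by omega, by omega⟩
      have hRd : Rd d.1 := by
        rw [hdj]
        unfold Rd
        refine ⟨by omega, by omega, by omega, by omega, by omega, by omega, by omega⟩
      have h5 : 5 ≤ w.length :=
        (lower lo v0 n y hy a d hRa hRd (w.map (SimpleGraph.Embedding.induce {x | x ∉ D}).toHom)).trans_eq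
          (SimpleGraph.Walk.length_map _ _)
      exact_mod_cast h5
  · intro D hD
    have hw := two D (by
      have : 0 ≤ c * n / Real.log y ^ 2 := by positivity
      linarith)
    constructor
    · have hDs := small1 D (hD.trans k2)
      obtain ⟨a, haD, -⟩ := free hv0 87516 (by norm_num) (by norm_num) (by norm_num) D hDs
      haveI : Nonempty {x | x ∉ D} := ⟨⟨a, haD⟩⟩
      refine ⟨fun u v => ?_⟩
      obtain ⟨w, -⟩ := hw u v
      exact ⟨w⟩
    · rw [SimpleGraph.ediam_le_iff]
      intro a b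
      obtain ⟨w, hw⟩ := hw a b
      refine (SimpleGraph.edist_le w).trans ?_
      exact_mod_cast hw
  · obtain ⟨D, hD1, hD2⟩ := hcut3 lo v0 n y hv0 hy (by omega) (hXi C3 (by omega))
    refine ⟨D, hD1.trans ?_, hD2⟩
    gcongr
    linarith
  · obtain ⟨D, hD1, hD2⟩ := hcut2 lo v0 n y hv0 hy (hXi C2 (by omega))
    refine ⟨D, hD1.trans ?_, hD2⟩
    gcongr
    linarith
  · intro u v k hk
    apply greedy (SG lo v0 n y) u v (k * 8) 7 _ k le_rfl
    intro D hD hu hv
    apply two D
    have h1 : (D.card : ℝ) ≤ k * 8 := by exact_mod_cast hD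
    have : 0 ≤ c * n / Real.log y ^ 2 := by positivity
    linarith

end Pool.Agent.Q107.GB
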