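import Pool.Agent.Q107.GB.Hub

set_option autoImplicit false

/-!
# Deleting vertices from the Goldbach graphs with respect to the small primes
-/

namespace Pool.Agent.Q107.GB

open Finset Pool.Agent.Y843.HS Pool.Agent.Q102.GG

lemma Pk3_ge {s y : ℕ} (hs : 10 ≤ s) : 1 / ((y : ℝ) + 2) ^ 6 ≤ Pk 3 s y := by
  have h1 : Sv 3 s y (fun _ => range 3) := by
    intro p hp
    refine ⟨by simp, fun c hc => ?_⟩
    have := (Pr_mem.1 hp).1.1
    have := mem_range.1 hc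
    omega
  have h2 := VV_ge (r := 3) (a := s) (b := y) (by omega) h1
  have h4 : VV (fun _ => range 3) s y = Pk 3 s y := by
    unfold VV Pk
    simp
  rw [h4] at h2
  refine le_trans ?_ h2
  have h3 := one_le_EE s y
  apply one_div_le_one_div_of_le (by positivity)
  apply pow_le_pow_left₀ (by linarith)
  rcases Nat.eq_zero_or_pos y with h | h
  · subst h
    have : Pr s 0 = ∅ := by
      unfold Pr
      rw [Ioc_eq_empty (by omega), filter_empty]
    unfold EE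
    rw [this]
    simp
  · have := EE_le_nat (a := s) (b := y) h
    linarith

lemma Pk32 {s y : ℕ} (hs : 3 ≤ s) : Pk 3 s y ≤ Pk 2 s y := by
  unfold Pk
  apply prod_le_prod
  · intro p hp
    have h1 := (Pr_mem.1 hp).1.1
    exact fac_nonneg (by omega) (by omega)
  · intro p hp
    have h1 := (Pr_mem.1 hp).1.1
    have h0 : (0 : ℝ) < p := by exact_mod_cast (by omega : 0 < p)
    have : ((2 : ℕ) : ℝ) ≤ ((3 : ℕ) : ℝ) := by norm_num
    have := div_le_div_of_nonneg_right this h0.le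
    linarith

open Classical in
lemma exb {c0 m : ℝ} (hm : 0 < c0 * m) (H E : Finset ℕ) (P Q F : ℕ → Prop)
    (h0 : c0 * m ≤ H.card) (h1 : ((H.filter (fun b => ¬ P b)).card : ℝ) ≤ c0 * m / 8)
    (h2 : ((H.filter (fun b => ¬ Q b)).card : ℝ) ≤ c0 * m / 8) (h3 : (E.card : ℝ) ≤ c0 * m / 16)
    (h4 : ((H.filter (fun b => ¬ F b)).card : ℝ) ≤ c0 * m / 8) :
    ∃ b ∈ H, P b ∧ Q b ∧ F b ∧ b ∉ E ∧ b + 6 ∉ E := by
  by_contra hcon
  push Not at hcon
  have h5 : (H.filter (fun b => b + 6 ∈ E)).card ≤ E.card := by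
    apply card_le_card_of_injOn (fun b => b + 6)
    · intro b hb
      exact (mem_filter.1 hb).2
    · intro a _ b _ hab
      have : a + 6 = b + 6 := hab
      omega
  have hsub : H ⊆ ((((H.filter (fun b => ¬ P b)) ∪ (H.filter (fun b => ¬ Q b))) ∪
      (H.filter (fun b => ¬ F b))) ∪ E) ∪ (H.filter (fun b => b + 6 ∈ E)) := by
    intro b hb
    simp only [mem_union, mem_filter]
    by_cases e1 : P b
    · by_cases e2 : Q b
      · by_cases e3 : F b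
        · by_cases e4 : b ∈ E
          · exact Or.inl (Or.inr e4)
          · exact Or.inr ⟨hb, hcon b hb e1 e2 e3 e4⟩
        · exact Or.inl (Or.inl (Or.inr ⟨hb, e3⟩))
      · exact Or.inl (Or.inl (Or.inl (Or.inr ⟨hb, e2⟩)))
    · exact Or.inl (Or.inl (Or.inl (Or.inl ⟨hb, e1⟩)))
  have h6 := card_le_card hsub
  have h7 := (card_union_le ((((H.filter (fun b => ¬ P b)) ∪ (H.filter (fun b => ¬ Q b))) ∪
      (H.filter (fun b => ¬ F b))) ∪ E) (H.filter (fun b => b + 6 ∈ E)))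
  have h8 := (card_union_le (((H.filter (fun b => ¬ P b)) ∪ (H.filter (fun b => ¬ Q b))) ∪
      (H.filter (fun b => ¬ F b))) E)
  have h9 := (card_union_le ((H.filter (fun b => ¬ P b)) ∪ (H.filter (fun b => ¬ Q b)))
      (H.filter (fun b => ¬ F b)))
  have h10 := (card_union_le (H.filter (fun b => ¬ P b)) (H.filter (fun b => ¬ Q b)))
  have h11 : H.card ≤ (H.filter (fun b => ¬ P b)).card + (H.filter (fun b => ¬ Q b)).card +
      (H.filter (fun b => ¬ F b)).card + E.card + E.card := by omega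
  have h12 : (H.card : ℝ) ≤ (H.filter (fun b => ¬ P b)).card + (H.filter (fun b => ¬ Q b)).card +
      (H.filter (fun b => ¬ F b)).card + E.card + E.card := by exact_mod_cast h11
  linarith

/-- there is a good common neighbour of `u` and `b` in the class `r` -/
def Lk (y X r : ℕ) (E : Finset ℕ) (u : ℤ) (b : ℤ) : Prop :=
  ∃ x ∈ Icc 1 X, x ∉ E ∧ x % 12 = r % 12 ∧ Fr u x ∧ Fr b x ∧ Nb y u x ∧ Nb y b x

open Classical in
theorem robust : ∃ s : ℕ, 27 ≤ s ∧ ∃ ε : ℝ, 0 < ε ∧ ∃ C : ℕ, 1 ≤ C ∧ ∀ lo v0 n y : ℕ, lo ≤ 3 → v0 ≤ 2 →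
    C * (y + 2) ^ C ≤ 2 * n - 6 → ∀ (K : Set (VT v0 n)) (E : Finset ℕ),
    (∀ x : VT v0 n, x.1 ∉ E → x ∈ K) →
    ((E.card : ℝ) ≤ ε * ((2 * n - 6 : ℕ) : ℝ) * Pk 2 s y →
      ∀ u v : K, Wi ((SG lo v0 n y).induce K) 7 u v) ∧
    ((E.card : ℝ) ≤ ε * ((2 * n - 6 : ℕ) : ℝ) * Pk 3 s y →
      ∀ u v : K, Wi ((SG lo v0 n y).induce K) 5 u v) := by
  obtain ⟨s1, hhub⟩ := hub
  obtain ⟨s2, hlow⟩ := lowS
  set s : ℕ := s1 + s2 + 100 with hs
  obtain ⟨C1, hC1, c0, hc0, hlow⟩ := hlow s (by omega)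
  obtain ⟨ε0, hε0, C2, hC2, hhub⟩ := hhub s (by omega) (c0 / 8) (by positivity)
  obtain ⟨C3, hC3⟩ : ∃ C3 : ℕ, 400 / c0 ≤ C3 := exists_nat_ge _
  refine ⟨s, by omega, min ε0 (c0 / 16), lt_min hε0 (by positivity), C1 + C2 + C3 + 6, by omega, ?_⟩
  intro lo v0 n y hlo hv0 hX K E hK
  set X : ℕ := 2 * n - 6 with hXdef
  set C : ℕ := C1 + C2 + C3 + 6 with hC
  have hXi : ∀ i : ℕ, i ≤ C → i * (y + 2) ^ i ≤ X := by
    intro i hi
    refine le_trans ?_ hX
    exact Nat.mul_le_mul hi (Nat.pow_le_pow_right (by omega) hi)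
  have hX1 := hXi C1 (by omega)
  have hX2 := hXi C2 (by omega)
  have hXpos : (0 : ℝ) < X := by
    have h5 : 0 < C * (y + 2) ^ C := by positivity
    exact_mod_cast lt_of_lt_of_le h5 hX
  have hP2p : 0 < Pk 2 s y := Pk_pos (by omega)
  have hP3p : 0 < Pk 3 s y := Pk_pos (by omega)
  have hP32 : Pk 3 s y ≤ Pk 2 s y := Pk32 (by omega)
  -- the size is large
  have hbig : 25 ≤ c0 * (X * Pk 3 s y) / 8 := by
    have g2 : 1 / ((y : ℝ) + 2) ^ 6 ≤ Pk 3 s y := Pk3_ge (by omega)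
    have g4 : (C3 : ℝ) * ((y : ℝ) + 2) ^ 6 ≤ X := by
      have : C3 * (y + 2) ^ 6 ≤ X := by
        refine le_trans ?_ hX
        exact Nat.mul_le_mul (by omega) (Nat.pow_le_pow_right (by omega) (by omega))
      exact_mod_cast this
    have g5 : 400 / c0 * ((y : ℝ) + 2) ^ 6 ≤ X :=
      (mul_le_mul_of_nonneg_right hC3 (by positivity)).trans g4
    have g6 : 400 / c0 ≤ X * (1 / ((y : ℝ) + 2) ^ 6) := by
      rw [mul_one_div, le_div_iff₀ (by positivity)]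
      exact g5
    have g7 : 400 / c0 ≤ X * Pk 3 s y := g6.trans (mul_le_mul_of_nonneg_left g2 hXpos.le)
    rw [div_le_iff₀ hc0] at g7
    linarith
  have hn6 : 6 ≤ 2 * n := by
    by_contra h
    have : X = 0 := by omega
    rw [this] at hXpos
    simp at hXpos
  -- vertices and edges
  have mk : ∀ x : ℕ, 1 ≤ x → x ≤ 2 * n → x % 2 = 0 → ∃ w : VT v0 n, w.1 = x := by
    intro x h1 h2 h3
    exact ⟨⟨x, by rw [Nat.even_iff]; exact h3, by omega, by omega⟩, rfl⟩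
  have adj : ∀ a w : VT v0 n, Cm (a.1 % 12) (w.1 % 12) → Fr a.1 w.1 → Nb y a.1 w.1 →
      (SG lo v0 n y).Adj a w := by
    intro a w h1 h2 h3
    have ha := a.2.2.2
    have hw := w.2.2.2
    unfold Fr at h2
    exact edge hlo ha hw h1 (by omega) (fun p hp hp5 hpy => (h3 p hp hp5 hpy).1)
      (fun p hp hp5 hpy => (h3 p hp hp5 hpy).2)
  have two : ∀ (u b : K) (r : ℕ), Cm (u.1.1 % 12) r → Cm (b.1.1 % 12) r →
      Lk y X r E u.1.1 b.1.1 → Wi ((SG lo v0 n y).induce K) 2 u b := by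
    rintro u b r hu hb ⟨x, hx1, hx2, hx3, hx4, hx5, hx6, hx7⟩
    obtain ⟨he, hr⟩ := hu.even
    rw [mem_Icc] at hx1
    have hx3' : x % 12 = r := by rw [hx3, Nat.mod_eq_of_lt hr]
    obtain ⟨w, hw⟩ := mk x hx1.1 (by omega) (by omega)
    have hwK : w ∈ K := hK w (by rw [hw]; exact hx2)
    have e1 : (SG lo v0 n y).Adj u.1 w := adj u.1 w (by rw [hw, hx3']; exact hu)
      (by rw [hw]; exact hx4) (by rw [hw]; exact hx6)
    have e2 : (SG lo v0 n y).Adj b.1 w := adj b.1 w (by rw [hw, hx3']; exact hb)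
      (by rw [hw]; exact hx5) (by rw [hw]; exact hx7)
    have e1' : ((SG lo v0 n y).induce K).Adj u ⟨w, hwK⟩ := e1
    have e2' : ((SG lo v0 n y).induce K).Adj ⟨w, hwK⟩ b := e2.symm
    exact (Wi.adj e1').trans (Wi.adj e2')
  -- the hubs
  have av : ∀ (S0 : Finset ℤ) (b : ℕ), (∀ c ∈ S0, ∀ p : ℕ, p.Prime → 5 ≤ p → p ≤ y →
      ¬ (p : ℤ) ∣ (b : ℤ) - c) → Av s y S0 b := by
    intro S0 b h c hc p hp
    obtain ⟨q1, q2⟩ := Pr_mem.1 hp
    exact h c hc p q2 (by omega) q1.2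
  have hb1 : ∀ (r : ℕ) (u δ : ℤ) (S0 : Finset ℤ) (H : Finset ℕ), S0.card ≤ 3 → H ⊆ Icc 1 X →
      (∀ b ∈ H, Av s y S0 b) → (E.card : ℝ) ≤ min ε0 (c0 / 16) * X * Pk 2 s y →
      ((H.filter (fun b : ℕ => ¬ Lk y X r E u (b + δ))).card : ℝ) ≤ c0 * (X * PP (rs S0) s y) / 8 := by
    intro r u δ S0 H hS0 hH hHS hE
    have g1 : (E.card : ℝ) ≤ ε0 * X * Pk 2 s y := by
      refine hE.trans ?_
      have := min_le_left ε0 (c0 / 16)
      gcongr
    have := hhub y X r u δ S0 H E hS0 hX2 hH hHS g1 (H.filter (fun b : ℕ => ¬ Lk y X r E u (b + δ)))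
      (filter_subset _ _) (fun b hb => (mem_filter.1 hb).2)
    refine this.trans (le_of_eq ?_)
    ring
  have hEc : ∀ P : ℝ, Pk 2 s y ≤ P → (E.card : ℝ) ≤ min ε0 (c0 / 16) * X * Pk 2 s y →
      (E.card : ℝ) ≤ c0 * (X * P) / 16 := by
    intro P hP hE
    have g1 : min ε0 (c0 / 16) * X * Pk 2 s y ≤ (c0 / 16) * X * P := by
      have h1 := min_le_right ε0 (c0 / 16)
      gcongr
    linarith
  have hP1 : PP (rs ∅) s y = 1 := by
    unfold PP rs
    simp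
  -- one neighbour
  have one : (E.card : ℝ) ≤ min ε0 (c0 / 16) * X * Pk 2 s y → ∀ (a : K) (r : ℕ), Cm (a.1.1 % 12) r →
      ∃ x : K, x.1.1 % 12 = r ∧ ((SG lo v0 n y).induce K).Adj a x := by
    intro hE a r ha
    obtain ⟨T, hT1, hT2, hT3⟩ := hlow y X r {(a.1.1 : ℤ), -(a.1.1 : ℤ)} (card_le_two.trans (by norm_num)) hX1
    have hPP : Pk 2 s y ≤ PP (rs {(a.1.1 : ℤ), -(a.1.1 : ℤ)}) s y := Pk_le_PP (by omega) card_le_two
    have hPP0 : 0 < PP (rs {(a.1.1 : ℤ), -(a.1.1 : ℤ)}) s y := lt_of_lt_of_le hP2p hPP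
    have hnc := near_card (a.1.1 : ℤ) T
    obtain ⟨x, hx1, -, -, hx2, hx3, -⟩ := exb (c0 := c0)
      (m := X * PP (rs {(a.1.1 : ℤ), -(a.1.1 : ℤ)}) s y) (by positivity) T E (fun _ => True)
      (fun _ => True) (fun x => Fr a.1.1 x) (by rw [← mul_assoc]; exact hT2)
      (by simp; positivity) (by simp; positivity) (hEc _ hPP hE) (by
        have g1 : ((T.filter (fun x => ¬ Fr a.1.1 x)).card : ℝ) ≤ 25 := by
          unfold Fr
          exact_mod_cast hnc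
        refine g1.trans (hbig.trans ?_)
        have : Pk 3 s y ≤ PP (rs {(a.1.1 : ℤ), -(a.1.1 : ℤ)}) s y := hP32.trans hPP
        gcongr)
    obtain ⟨he, hr⟩ := ha.even
    obtain ⟨g1, g2⟩ := hT3 x hx1
    have hx4 := mem_Icc.1 (hT1 hx1)
    have hx5 : x % 12 = r := by rw [g1, Nat.mod_eq_of_lt hr]
    obtain ⟨w, hw⟩ := mk x hx4.1 (by omega) (by omega)
    have hwK : w ∈ K := hK w (by rw [hw]; exact hx3)
    refine ⟨⟨w, hwK⟩, by rw [hw]; exact hx5, ?_⟩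
    have e1 : (SG lo v0 n y).Adj a.1 w := adj a.1 w (by rw [hw, hx5]; exact ha)
      (by rw [hw]; exact hx2) (by
        rw [hw]
        exact fun p hp hp5 hpy => ⟨g2 _ (by simp) p hp hp5 hpy, g2 _ (by simp) p hp hp5 hpy⟩)
    exact e1
  -- the same type
  have same : (E.card : ℝ) ≤ min ε0 (c0 / 16) * X * Pk 2 s y → ∀ (u v : K) (h r : ℕ), h < 12 →
      Cm (u.1.1 % 12) r → Cm (v.1.1 % 12) r → Cm h r → Wi ((SG lo v0 n y).induce K) 4 u v := by
    intro hE u v h r hh12 hu hv hh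
    obtain ⟨T, hT1, hT2, hT3⟩ := hlow y X h ∅ (by simp) hX1
    have hTa : ∀ b ∈ T, Av s y ∅ b := fun b _ c hc => absurd hc (notMem_empty c)
    have k1 := hb1 r u.1.1 0 ∅ T (by simp) hT1 hTa hE
    have k2 := hb1 r v.1.1 0 ∅ T (by simp) hT1 hTa hE
    rw [hP1] at hT2 k1 k2
    obtain ⟨b, hb1, hb2, hb3, -, hb4, -⟩ := exb (c0 := c0) (m := X * 1) (by positivity) T E
      (fun b => Lk y X r E u.1.1 (b + 0)) (fun b => Lk y X r E v.1.1 (b + 0)) (fun _ => True)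
      (by rw [← mul_assoc]; exact hT2) k1 k2
      (hEc 1 (Pk_le_one (by omega)) hE) (by simp; positivity)
    rw [add_zero] at hb2 hb3
    obtain ⟨g1, -⟩ := hT3 b hb1
    have g1' : b % 12 = h := by rw [g1, Nat.mod_eq_of_lt hh12]
    have hx4 := mem_Icc.1 (hT1 hb1)
    have hev : h % 2 = 0 := by
      rcases hh with ⟨h3, -⟩ | ⟨h3 | h3, -⟩ | ⟨h3 | h3, -⟩ | ⟨h3, -⟩ <;> omega
    obtain ⟨w, hw⟩ := mk b hx4.1 (by omega) (by omega)
    have hwK : w ∈ K := hK w (by rw [hw]; exact hb4)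
    have e1 : Wi ((SG lo v0 n y).induce K) 2 u ⟨w, hwK⟩ := two u ⟨w, hwK⟩ r hu
      (by show Cm (w.1 % 12) r; rw [hw, g1']; exact hh) (by show Lk y X r E _ (w.1 : ℤ); rw [hw]; exact hb2)
    have e2 : Wi ((SG lo v0 n y).induce K) 2 v ⟨w, hwK⟩ := two v ⟨w, hwK⟩ r hv
      (by show Cm (w.1 % 12) r; rw [hw, g1']; exact hh) (by show Lk y X r E _ (w.1 : ℤ); rw [hw]; exact hb3)
    exact e1.trans e2.symm
  -- the bridges
  have bridge : ∀ b : ℕ, 1 ≤ b → b ≤ X → b % 12 = 2 → b ∉ E → b + 6 ∉ E →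
      (∀ p : ℕ, p.Prime → 5 ≤ p → p ≤ y → ¬ (p : ℤ) ∣ (b : ℤ) - (-3)) →
      ∃ w w' : K, w.1.1 = b ∧ w'.1.1 = b + 6 ∧ ((SG lo v0 n y).induce K).Adj w w' := by
    intro b h1 h2 h3 h4 h5 h6
    obtain ⟨w, hw⟩ := mk b h1 (by omega) (by omega)
    obtain ⟨w', hw'⟩ := mk (b + 6) (by omega) (by omega) (by omega)
    have hwK : w ∈ K := hK w (by rw [hw]; exact h4)
    have hwK' : w' ∈ K := hK w' (by rw [hw']; exact h5)
    refine ⟨⟨w, hwK⟩, ⟨w', hwK'⟩, hw, hw', ?_⟩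
    show Rl lo n y w.1 w'.1
    rw [hw, hw']
    exact edge6 hlo h1 (by omega) h3 h6
  have hC0 : Cm 2 0 := Or.inr (Or.inl ⟨Or.inl rfl, rfl⟩)
  have hC8 : Cm 8 6 := Or.inr (Or.inr (Or.inl ⟨Or.inr rfl, rfl⟩))
  have hB : ∀ a : K, a.1.1 % 12 = 2 ∨ a.1.1 % 12 = 10 → Cm (a.1.1 % 12) 0 :=
    fun a h => Or.inr (Or.inl ⟨h, rfl⟩)
  have hC' : ∀ a : K, a.1.1 % 12 = 4 ∨ a.1.1 % 12 = 8 → Cm (a.1.1 % 12) 6 :=
    fun a h => Or.inr (Or.inr (Or.inl ⟨h, rfl⟩))
  have hA : Cm 0 2 := Or.inl ⟨rfl, Or.inl rfl⟩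
  have hD : Cm 6 4 := Or.inr (Or.inr (Or.inr ⟨rfl, Or.inl rfl⟩))
  have hD8 : Cm 6 8 := Or.inr (Or.inr (Or.inr ⟨rfl, Or.inr rfl⟩))
  -- from `B` to `C`
  have BC : (E.card : ℝ) ≤ min ε0 (c0 / 16) * X * Pk 2 s y → ∀ u v : K,
      (u.1.1 % 12 = 2 ∨ u.1.1 % 12 = 10) → (v.1.1 % 12 = 4 ∨ v.1.1 % 12 = 8) →
      Wi ((SG lo v0 n y).induce K) 5 u v := by
    intro hE u v hu hv
    obtain ⟨T, hT1, hT2, hT3⟩ := hlow y X 2 {-3} (by simp) hX1
    have hTa : ∀ b ∈ T, Av s y {-3} b := fun b hb => av _ b (hT3 b hb).2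
    have k1 := hb1 0 u.1.1 0 {-3} T (by simp) hT1 hTa hE
    have k2 := hb1 6 v.1.1 6 {-3} T (by simp) hT1 hTa hE
    have hPP : Pk 2 s y ≤ PP (rs {-3}) s y := Pk_le_PP (by omega) (by simp)
    have hPP0 : 0 < PP (rs {-3}) s y := lt_of_lt_of_le hP2p hPP
    obtain ⟨b, hb1, hb2, hb3, -, hb4, hb5⟩ := exb (c0 := c0) (m := X * PP (rs {-3}) s y) (by positivity)
      T E (fun b => Lk y X 0 E u.1.1 (b + 0)) (fun b => Lk y X 6 E v.1.1 (b + 6)) (fun _ => True)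
      (by rw [← mul_assoc]; exact hT2) k1 k2 (hEc _ hPP hE) (by simp; positivity)
    rw [add_zero] at hb2
    obtain ⟨g1, g2⟩ := hT3 b hb1
    have hx4 := mem_Icc.1 (hT1 hb1)
    obtain ⟨w, w', hw, hw', hadj⟩ := bridge b hx4.1 hx4.2 g1 hb4 hb5
      (g2 (-3) (by simp))
    have e1 := two u w 0 (hB u hu) (by rw [hw, g1]; exact hC0) (by rw [hw]; exact hb2)
    have e2 := two v w' 6 (hC' v hv) (by
      rw [hw', show (b + 6) % 12 = 8 by omega]; exact hC8) (by rw [hw']; push_cast; exact hb3)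
    exact (e1.trans (Wi.adj hadj)).trans e2.symm
  -- from `A` to `C`
  have AC : (E.card : ℝ) ≤ min ε0 (c0 / 16) * X * Pk 3 s y → ∀ u v : K,
      u.1.1 % 12 = 0 → (v.1.1 % 12 = 4 ∨ v.1.1 % 12 = 8) →
      Wi ((SG lo v0 n y).induce K) 4 u v := by
    intro hE3 u v hu hv
    have hE : (E.card : ℝ) ≤ min ε0 (c0 / 16) * X * Pk 2 s y := by
      refine hE3.trans ?_
      have : 0 ≤ min ε0 (c0 / 16) := le_min hε0.le (by positivity)
      gcongr
    obtain ⟨T, hT1, hT2, hT3⟩ := hlow y X 2 {-3, (u.1.1 : ℤ), -(u.1.1 : ℤ)}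
      (card_le_three.trans (by norm_num)) hX1
    have hTa : ∀ b ∈ T, Av s y {-3, (u.1.1 : ℤ), -(u.1.1 : ℤ)} b := fun b hb => av _ b (hT3 b hb).2
    have k2 := hb1 6 v.1.1 6 {-3, (u.1.1 : ℤ), -(u.1.1 : ℤ)} T card_le_three hT1 hTa hE
    have hPP : Pk 3 s y ≤ PP (rs {-3, (u.1.1 : ℤ), -(u.1.1 : ℤ)}) s y := Pk_le_PP (by omega) card_le_three
    set P0 := PP (rs {-3, (u.1.1 : ℤ), -(u.1.1 : ℤ)}) s y with hP0
    have hPP0 : 0 < P0 := lt_of_lt_of_le hP3p hPP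
    have hnc := near_card (u.1.1 : ℤ) T
    obtain ⟨b, hb1, -, hb3, hb2, hb4, hb5⟩ := exb (c0 := c0) (m := X * P0) (by positivity)
      T E (fun _ => True) (fun b => Lk y X 6 E v.1.1 (b + 6)) (fun x => Fr u.1.1 x)
      (by rw [← mul_assoc]; exact hT2) (by simp; positivity) k2 (by
        have h1 := min_le_right ε0 (c0 / 16)
        have g1 : min ε0 (c0 / 16) * X * Pk 3 s y ≤ (c0 / 16) * X * P0 := by
          gcongr
        linarith) (by
        have g1 : ((T.filter (fun x => ¬ Fr u.1.1 x)).card : ℝ) ≤ 25 := by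
          unfold Fr
          exact_mod_cast hnc
        refine g1.trans (hbig.trans ?_)
        gcongr)
    obtain ⟨g1, g2⟩ := hT3 b hb1
    have hx4 := mem_Icc.1 (hT1 hb1)
    obtain ⟨w, w', hw, hw', hadj⟩ := bridge b hx4.1 hx4.2 g1 hb4 hb5
      (g2 (-3) (by simp))
    have e0 : ((SG lo v0 n y).induce K).Adj u w := by
      refine adj u.1 w.1 (by rw [hw, hu, g1]; exact hA) (by rw [hw]; exact hb2) ?_
      rw [hw]
      exact fun p hp hp5 hpy => ⟨g2 _ (by simp) p hp hp5 hpy, g2 _ (by simp) p hp hp5 hpy⟩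
    have e2 := two v w' 6 (hC' v hv) (by
      rw [hw', show (b + 6) % 12 = 8 by omega]; exact hC8) (by rw [hw']; push_cast; exact hb3)
    exact ((Wi.adj e0).trans (Wi.adj hadj)).trans e2.symm
  -- from `B` to `D`
  have BD : (E.card : ℝ) ≤ min ε0 (c0 / 16) * X * Pk 3 s y → ∀ u v : K,
      (u.1.1 % 12 = 2 ∨ u.1.1 % 12 = 10) → v.1.1 % 12 = 6 →
      Wi ((SG lo v0 n y).induce K) 4 u v := by
    intro hE3 u v hu hv
    have hE : (E.card : ℝ) ≤ min ε0 (c0 / 16) * X * Pk 2 s y := by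
      refine hE3.trans ?_
      have : 0 ≤ min ε0 (c0 / 16) := le_min hε0.le (by positivity)
      gcongr
    obtain ⟨T, hT1, hT2, hT3⟩ := hlow y X 2 {-3, (v.1.1 : ℤ) - 6, -(v.1.1 : ℤ) - 6}
      (card_le_three.trans (by norm_num)) hX1
    have hTa : ∀ b ∈ T, Av s y {-3, (v.1.1 : ℤ) - 6, -(v.1.1 : ℤ) - 6} b :=
      fun b hb => av _ b (hT3 b hb).2
    have k1 := hb1 0 u.1.1 0 {-3, (v.1.1 : ℤ) - 6, -(v.1.1 : ℤ) - 6} T card_le_three hT1 hTa hE
    have hPP : Pk 3 s y ≤ PP (rs {-3, (v.1.1 : ℤ) - 6, -(v.1.1 : ℤ) - 6}) s y :=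
      Pk_le_PP (by omega) card_le_three
    set P0 := PP (rs {-3, (v.1.1 : ℤ) - 6, -(v.1.1 : ℤ) - 6}) s y with hP0
    have hPP0 : 0 < P0 := lt_of_lt_of_le hP3p hPP
    have hnc := near_card ((v.1.1 : ℤ) - 6) T
    obtain ⟨b, hb1, hb3, -, hb2, hb4, hb5⟩ := exb (c0 := c0) (m := X * P0) (by positivity)
      T E (fun b => Lk y X 0 E u.1.1 (b + 0)) (fun _ => True) (fun x => Fr ((v.1.1 : ℤ) - 6) x)
      (by rw [← mul_assoc]; exact hT2) k1 (by simp; positivity) (by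
        have h1 := min_le_right ε0 (c0 / 16)
        have g1 : min ε0 (c0 / 16) * X * Pk 3 s y ≤ (c0 / 16) * X * P0 := by
          gcongr
        linarith) (by
        have g1 : ((T.filter (fun x => ¬ Fr ((v.1.1 : ℤ) - 6) x)).card : ℝ) ≤ 25 := by
          unfold Fr
          exact_mod_cast hnc
        refine g1.trans (hbig.trans ?_)
        gcongr)
    rw [add_zero] at hb3
    obtain ⟨g1, g2⟩ := hT3 b hb1
    have hx4 := mem_Icc.1 (hT1 hb1)
    obtain ⟨w, w', hw, hw', hadj⟩ := bridge b hx4.1 hx4.2 g1 hb4 hb5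
      (g2 (-3) (by simp))
    have e0 : ((SG lo v0 n y).induce K).Adj v w' := by
      refine adj v.1 w'.1 (by rw [hw', hv, show (b + 6) % 12 = 8 by omega]; exact hD8) (by
        rw [hw']
        unfold Fr at hb2 ⊢
        push_cast
        omega) ?_
      rw [hw']
      intro p hp hp5 hpy
      have q1 := g2 ((v.1.1 : ℤ) - 6) (by simp) p hp hp5 hpy
      have q2 := g2 (-(v.1.1 : ℤ) - 6) (by simp) p hp hp5 hpy
      refine ⟨?_, ?_⟩
      · have e : ((b + 6 : ℕ) : ℤ) - v.1.1 = b - ((v.1.1 : ℤ) - 6) := by push_cast; ring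
        rw [e]
        exact q1
      · have e : ((b + 6 : ℕ) : ℤ) - (-v.1.1) = b - (-(v.1.1 : ℤ) - 6) := by push_cast; ring
        rw [e]
        exact q2
    have e2 := two u w 0 (hB u hu) (by rw [hw, g1]; exact hC0) (by rw [hw]; exact hb3)
    exact (e2.trans (Wi.adj hadj)).trans (Wi.adj e0).symm
  have ty : ∀ u : K, u.1.1 % 12 = 0 ∨ (u.1.1 % 12 = 2 ∨ u.1.1 % 12 = 10) ∨
      (u.1.1 % 12 = 4 ∨ u.1.1 % 12 = 8) ∨ u.1.1 % 12 = 6 := by
    intro u
    have := u.1.2.1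
    rw [Nat.even_iff] at this
    omega
  -- all the pairs of the same type
  have AA : (E.card : ℝ) ≤ min ε0 (c0 / 16) * X * Pk 2 s y → ∀ u v : K, u.1.1 % 12 = 0 →
      v.1.1 % 12 = 0 → Wi ((SG lo v0 n y).induce K) 4 u v := fun hE u v hu hv =>
    same hE u v 0 2 (by norm_num) (by rw [hu]; exact hA) (by rw [hv]; exact hA) hA
  have BB : (E.card : ℝ) ≤ min ε0 (c0 / 16) * X * Pk 2 s y → ∀ u v : K,
      (u.1.1 % 12 = 2 ∨ u.1.1 % 12 = 10) → (v.1.1 % 12 = 2 ∨ v.1.1 % 12 = 10) →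
      Wi ((SG lo v0 n y).induce K) 4 u v := fun hE u v hu hv =>
    same hE u v 2 0 (by norm_num) (hB u hu) (hB v hv) hC0
  have CC : (E.card : ℝ) ≤ min ε0 (c0 / 16) * X * Pk 2 s y → ∀ u v : K,
      (u.1.1 % 12 = 4 ∨ u.1.1 % 12 = 8) → (v.1.1 % 12 = 4 ∨ v.1.1 % 12 = 8) →
      Wi ((SG lo v0 n y).induce K) 4 u v := fun hE u v hu hv =>
    same hE u v 8 6 (by norm_num) (hC' u hu) (hC' v hv) hC8
  have DD : (E.card : ℝ) ≤ min ε0 (c0 / 16) * X * Pk 2 s y → ∀ u v : K, u.1.1 % 12 = 6 →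
      v.1.1 % 12 = 6 → Wi ((SG lo v0 n y).induce K) 4 u v := fun hE u v hu hv =>
    same hE u v 6 4 (by norm_num) (by rw [hu]; exact hD) (by rw [hv]; exact hD) hD
  have AB : (E.card : ℝ) ≤ min ε0 (c0 / 16) * X * Pk 2 s y → ∀ u v : K, u.1.1 % 12 = 0 →
      (v.1.1 % 12 = 2 ∨ v.1.1 % 12 = 10) → Wi ((SG lo v0 n y).induce K) 5 u v := by
    intro hE u v hu hv
    obtain ⟨x, hx, hux⟩ := one hE u 2 (by rw [hu]; exact hA)
    exact (Wi.adj hux).trans (BB hE x v (Or.inl hx) hv)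
  have CD : (E.card : ℝ) ≤ min ε0 (c0 / 16) * X * Pk 2 s y → ∀ u v : K,
      (u.1.1 % 12 = 4 ∨ u.1.1 % 12 = 8) → v.1.1 % 12 = 6 → Wi ((SG lo v0 n y).induce K) 5 u v := by
    intro hE u v hu hv
    obtain ⟨x, hx, hux⟩ := one hE u 6 (hC' u hu)
    exact (Wi.adj hux).trans (DD hE x v hx hv)
  constructor
  · intro hE
    have AC6 : ∀ u v : K, u.1.1 % 12 = 0 → (v.1.1 % 12 = 4 ∨ v.1.1 % 12 = 8) →
        Wi ((SG lo v0 n y).induce K) 6 u v := by
      intro u v hu hv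
      obtain ⟨x, hx, hux⟩ := one hE u 2 (by rw [hu]; exact hA)
      exact (Wi.adj hux).trans (BC hE x v (Or.inl hx) hv)
    have BD6 : ∀ u v : K, (u.1.1 % 12 = 2 ∨ u.1.1 % 12 = 10) → v.1.1 % 12 = 6 →
        Wi ((SG lo v0 n y).induce K) 6 u v := by
      intro u v hu hv
      obtain ⟨x, hx, hvx⟩ := one hE v 4 (by rw [hv]; exact hD)
      exact (BC hE u x hu (Or.inl hx)).trans (Wi.adj hvx).symm
    have AD7 : ∀ u v : K, u.1.1 % 12 = 0 → v.1.1 % 12 = 6 →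
        Wi ((SG lo v0 n y).induce K) 7 u v := by
      intro u v hu hv
      obtain ⟨x, hx, hvx⟩ := one hE v 4 (by rw [hv]; exact hD)
      exact (AC6 u x hu (Or.inl hx)).trans (Wi.adj hvx).symm
    intro u v
    rcases ty u with hu | hu | hu | hu <;> rcases ty v with hv | hv | hv | hv
    · exact (AA hE u v hu hv).mono (by norm_num)
    · exact (AB hE u v hu hv).mono (by norm_num)
    · exact (AC6 u v hu hv).mono (by norm_num)
    · exact AD7 u v hu hv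
    · exact (AB hE v u hv hu).symm.mono (by norm_num)
    · exact (BB hE u v hu hv).mono (by norm_num)
    · exact (BC hE u v hu hv).mono (by norm_num)
    · exact (BD6 u v hu hv).mono (by norm_num)
    · exact (AC6 v u hv hu).symm.mono (by norm_num)
    · exact (BC hE v u hv hu).symm.mono (by norm_num)
    · exact (CC hE u v hu hv).mono (by norm_num)
    · exact (CD hE u v hu hv).mono (by norm_num)
    · exact (AD7 v u hv hu).symm
    · exact (BD6 v u hv hu).symm.mono (by norm_num)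
    · exact (CD hE v u hv hu).symm.mono (by norm_num)
    · exact (DD hE u v hu hv).mono (by norm_num)
  · intro hE3
    have hE : (E.card : ℝ) ≤ min ε0 (c0 / 16) * X * Pk 2 s y := by
      refine hE3.trans ?_
      have : 0 ≤ min ε0 (c0 / 16) := le_min hε0.le (by positivity)
      gcongr
    have AD5 : ∀ u v : K, u.1.1 % 12 = 0 → v.1.1 % 12 = 6 →
        Wi ((SG lo v0 n y).induce K) 5 u v := by
      intro u v hu hv
      obtain ⟨x, hx, hvx⟩ := one hE v 4 (by rw [hv]; exact hD)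
      exact (AC hE3 u x hu (Or.inl hx)).trans (Wi.adj hvx).symm
    intro u v
    rcases ty u with hu | hu | hu | hu <;> rcases ty v with hv | hv | hv | hv
    · exact (AA hE u v hu hv).mono (by norm_num)
    · exact (AB hE u v hu hv).mono (by norm_num)
    · exact (AC hE3 u v hu hv).mono (by norm_num)
    · exact AD5 u v hu hv
    · exact (AB hE v u hv hu).symm.mono (by norm_num)
    · exact (BB hE u v hu hv).mono (by norm_num)
    · exact (BC hE u v hu hv).mono (by norm_num)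
    · exact (BD hE3 u v hu hv).mono (by norm_num)
    · exact (AC hE3 v u hv hu).symm.mono (by norm_num)
    · exact (BC hE v u hv hu).symm.mono (by norm_num)
    · exact (CC hE u v hu hv).mono (by norm_num)
    · exact (CD hE u v hu hv).mono (by norm_num)
    · exact (AD5 v u hv hu).symm
    · exact (BD hE3 v u hv hu).symm.mono (by norm_num)
    · exact (CD hE v u hv hu).symm.mono (by norm_num)
    · exact (DD hE u v hu hv).mono (by norm_num)

end Pool.Agent.Q107.GB
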