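import Pool.Agent.Q107.GB.Pd

set_option autoImplicit false

/-!
# Most elements of a sifted set have a common neighbour with a given vertex outside a given set
-/

namespace Pool.Agent.Q107.GB

open Finset Pool.Agent.Y843.HS Pool.Agent.Q102.GG

/-- `x` avoids the integers of `S` modulo the primes of `(s, y]` -/
def Av (s y : ℕ) (S : Finset ℤ) (x : ℕ) : Prop := ∀ c ∈ S, ∀ p ∈ Pr s y, ¬ (p : ℤ) ∣ (x : ℤ) - c

lemma PP_ge {s y : ℕ} (hs : 10 ≤ s) {S : Finset ℤ} (hS : S.card ≤ 5) :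
    1 / ((y : ℝ) + 2) ^ 10 ≤ PP (rs S) s y := by
  have h1 : Sv 5 s y (rs S) := fun p hp => ⟨rs_card.trans hS, fun c hc => rs_lt (Pr_mem.1 hp).2.pos hc⟩
  have h2 := VV_ge (r := 5) (a := s) (b := y) (by omega) h1
  refine le_trans ?_ h2
  have h3 := one_le_EE s y
  apply one_div_le_one_div_of_le (by positivity)
  apply pow_le_pow_left₀ (by linarith)
  rcases Nat.eq_zero_or_pos y with h | h
  · subst h
    have : Pr s 0 = ∅ := by
      unfold Pr
      rw [Ioc_eq_empty (by omega), filter_empty]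
    unfold EE
    rw [this]
    simp
  · have := EE_le_nat (a := s) (b := y) h
    linarith

lemma Pk2_ge {s y : ℕ} (hs : 10 ≤ s) : 1 / ((y : ℝ) + 2) ^ 4 ≤ Pk 2 s y := by
  have h1 : Sv 2 s y (fun _ => range 2) := by
    intro p hp
    refine ⟨by simp, fun c hc => ?_⟩
    have := (Pr_mem.1 hp).1.1
    have := mem_range.1 hc
    omega
  have h2 := VV_ge (r := 2) (a := s) (b := y) (by omega) h1
  have h4 : VV (fun _ => range 2) s y = Pk 2 s y := by
    unfold VV Pk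
    simp
  rw [h4] at h2
  refine le_trans ?_ h2
  have h3 := one_le_EE s y
  apply one_div_le_one_div_of_le (by positivity)
  apply pow_le_pow_left₀ (by linarith)
  rcases Nat.eq_zero_or_pos y with h | h
  · subst h
    have : Pr s 0 = ∅ := by
      unfold Pr
      rw [Ioc_eq_empty (by omega), filter_empty]
    unfold EE
    rw [this]
    simp
  · have := EE_le_nat (a := s) (b := y) h
    linarith

lemma sum32 : ∃ Z : ℝ, 0 ≤ Z ∧ ∀ s y : ℕ, ∑ p ∈ Pr s y, 1 / ((p : ℝ) * Real.sqrt p) ≤ Z := by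
  have hs : Summable (fun n : ℕ => 1 / (n : ℝ) ^ (3 / 2 : ℝ)) :=
    Real.summable_one_div_nat_rpow.2 (by norm_num)
  refine ⟨∑' n : ℕ, 1 / (n : ℝ) ^ (3 / 2 : ℝ), tsum_nonneg fun n => by positivity, ?_⟩
  intro s y
  have h1 : ∑ p ∈ Pr s y, 1 / ((p : ℝ) * Real.sqrt p) = ∑ p ∈ Pr s y, 1 / (p : ℝ) ^ (3 / 2 : ℝ) := by
    apply sum_congr rfl
    intro p hp
    have hp0 : (0 : ℝ) < p := by exact_mod_cast (Pr_mem.1 hp).2.pos
    congr 1
    rw [Real.sqrt_eq_rpow, show (3 / 2 : ℝ) = 1 + 1 / 2 by norm_num, Real.rpow_add hp0, Real.rpow_one]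
  rw [h1]
  exact hs.sum_le_tsum _ (fun n _ => by positivity)

open Classical in
/-- the averages -/
lemma avg : ∃ s1 : ℕ, ∀ s : ℕ, s1 ≤ s → ∃ C : ℕ, 1 ≤ C ∧ ∃ K : ℝ, 0 < K ∧
    ∀ (y X : ℕ) (S Tt : Finset ℤ) (A : Finset ℕ), S.card ≤ 4 → Tt.card ≤ 7 → C * (y + 2) ^ C ≤ X →
      A ⊆ Icc 1 X → (∀ x ∈ A, Av s y S x) →
      ∑ x ∈ A, Real.exp (∑ p ∈ (Pr s y).filter (fun p : ℕ => ∃ τ ∈ Tt, (p : ℤ) ∣ (x : ℤ) - τ), 8 / (p : ℝ)) ≤
        K * X * PP (rs S) s y := by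
  obtain ⟨a1, h1⟩ := jen 8 (by norm_num)
  obtain ⟨a2, h2⟩ := upS
  obtain ⟨a3, h3⟩ := apS
  obtain ⟨Z, hZ, hsum⟩ := sum32
  refine ⟨a1 + a2 + a3 + 5, ?_⟩
  intro s hs
  have h1 := h1 s (by omega)
  obtain ⟨C2, hC2, h2⟩ := h2 s (by omega)
  obtain ⟨C3, hC3, h3⟩ := h3 s (by omega)
  refine ⟨C2 + C3, by omega, 2 + 56 * Z, by positivity, ?_⟩
  intro y X S Tt A hS hTt hX hA hAS
  have hX2 : C2 * (y + 2) ^ C2 ≤ X := by
    refine le_trans ?_ hX
    exact Nat.mul_le_mul (by omega) (Nat.pow_le_pow_right (by omega) (by omega))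
  have hX3 : C3 * (y + 2) ^ C3 ≤ X := by
    refine le_trans ?_ hX
    exact Nat.mul_le_mul (by omega) (Nat.pow_le_pow_right (by omega) (by omega))
  have hP0 : 0 < PP (rs S) s y := PP_pos (by omega)
  have e1 : ∀ x ∈ A, Real.exp (∑ p ∈ (Pr s y).filter (fun p : ℕ => ∃ τ ∈ Tt, (p : ℤ) ∣ (x : ℤ) - τ),
      8 / (p : ℝ)) ≤ 1 + ∑ p ∈ Pr s y, ∑ τ ∈ Tt, if (p : ℤ) ∣ (x : ℤ) - τ then 1 / Real.sqrt p else 0 := by
    intro x _
    have hh := h1 y ((Pr s y).filter (fun p : ℕ => ∃ τ ∈ Tt, (p : ℤ) ∣ (x : ℤ) - τ)) (filter_subset _ _)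
    refine hh.trans ?_
    rw [sum_filter]
    gcongr with p hp
    split_ifs with h
    · obtain ⟨τ, hτ, hd⟩ := h
      have := single_le_sum (s := Tt) (f := fun τ => if (p : ℤ) ∣ (x : ℤ) - τ then 1 / Real.sqrt p else 0)
        (fun τ _ => by split_ifs <;> positivity) hτ
      simpa [hd] using this
    · exact sum_nonneg fun τ _ => by split_ifs <;> positivity
  refine (sum_le_sum e1).trans ?_
  rw [sum_add_distrib, sum_const, nsmul_eq_mul, mul_one, sum_comm]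
  have e2 : (A.card : ℝ) ≤ 2 * X * PP (rs S) s y := h2 y X S (by omega) hX2 A hA hAS
  have e3 : ∀ p ∈ Pr s y, ∑ x ∈ A, ∑ τ ∈ Tt, (if (p : ℤ) ∣ (x : ℤ) - τ then 1 / Real.sqrt p else 0) ≤
      56 * (1 / ((p : ℝ) * Real.sqrt p)) * (X * PP (rs S) s y) := by
    intro p hp
    have hp0 : (0 : ℝ) < p := by exact_mod_cast (Pr_mem.1 hp).2.pos
    have hsq0 : 0 < Real.sqrt p := Real.sqrt_pos.2 hp0
    rw [sum_comm]
    have e4 : ∀ τ ∈ Tt, ∑ x ∈ A, (if (p : ℤ) ∣ (x : ℤ) - τ then 1 / Real.sqrt p else 0) ≤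
        8 * (1 / ((p : ℝ) * Real.sqrt p)) * (X * PP (rs S) s y) := by
      intro τ _
      rw [← sum_filter, sum_const, nsmul_eq_mul]
      have := h3 y X p τ S hS hX3 hp (A.filter (fun x : ℕ => (p : ℤ) ∣ (x : ℤ) - τ))
        ((filter_subset _ _).trans hA) (fun x hx => (mem_filter.1 hx).2)
        (fun x hx => hAS x (mem_filter.1 hx).1)
      calc ((A.filter (fun x : ℕ => (p : ℤ) ∣ (x : ℤ) - τ)).card : ℝ) * (1 / Real.sqrt p) ≤
          (8 / p * X * PP (rs S) s y) * (1 / Real.sqrt p) :=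
            mul_le_mul_of_nonneg_right this (by positivity)
        _ = 8 * (1 / ((p : ℝ) * Real.sqrt p)) * (X * PP (rs S) s y) := by
            field_simp
    refine (sum_le_sum e4).trans ?_
    rw [sum_const, nsmul_eq_mul]
    have hT : (Tt.card : ℝ) ≤ 7 := by exact_mod_cast hTt
    have hnn : 0 ≤ 8 * (1 / ((p : ℝ) * Real.sqrt p)) * (X * PP (rs S) s y) := by positivity
    calc (Tt.card : ℝ) * (8 * (1 / ((p : ℝ) * Real.sqrt p)) * (X * PP (rs S) s y)) ≤
        7 * (8 * (1 / ((p : ℝ) * Real.sqrt p)) * (X * PP (rs S) s y)) :=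
          mul_le_mul_of_nonneg_right hT hnn
      _ = 56 * (1 / ((p : ℝ) * Real.sqrt p)) * (X * PP (rs S) s y) := by ring
  have e5 := sum_le_sum e3
  have e6 : ∑ p ∈ Pr s y, 56 * (1 / ((p : ℝ) * Real.sqrt p)) * (X * PP (rs S) s y) =
      56 * (X * PP (rs S) s y) * ∑ p ∈ Pr s y, 1 / ((p : ℝ) * Real.sqrt p) := by
    rw [mul_sum]
    apply sum_congr rfl
    intro p _
    ring
  have e7 : 56 * (X * PP (rs S) s y) * ∑ p ∈ Pr s y, 1 / ((p : ℝ) * Real.sqrt p) ≤
      56 * (X * PP (rs S) s y) * Z := mul_le_mul_of_nonneg_left (hsum s y) (by positivity)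
  calc (A.card : ℝ) + ∑ p ∈ Pr s y, ∑ x ∈ A, ∑ τ ∈ Tt,
        (if (p : ℤ) ∣ (x : ℤ) - τ then 1 / Real.sqrt p else 0) ≤
      2 * X * PP (rs S) s y + 56 * (X * PP (rs S) s y) * Z := by linarith
    _ = (2 + 56 * Z) * X * PP (rs S) s y := by ring

/-- `x` avoids `± e` modulo the primes `5 ≤ p ≤ y` -/
def Nb (y : ℕ) (e : ℤ) (x : ℕ) : Prop :=
  ∀ p : ℕ, p.Prime → 5 ≤ p → p ≤ y → ¬ (p : ℤ) ∣ (x : ℤ) - e ∧ ¬ (p : ℤ) ∣ (x : ℤ) - (-e)

/-- far from `e` -/
def Fr (e : ℤ) (x : ℕ) : Prop := e + 12 < x ∨ (x : ℤ) + 12 < e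

lemma near_card (e : ℤ) (T : Finset ℕ) : (T.filter (fun x : ℕ => ¬ (e + 12 < (x : ℤ) ∨ (x : ℤ) + 12 < e))).card ≤ 25 := by
  have h1 : ((T.filter (fun x : ℕ => ¬ (e + 12 < (x : ℤ) ∨ (x : ℤ) + 12 < e))).image (fun x : ℕ => (x : ℤ))).card ≤
      (Icc (e - 12) (e + 12)).card := by
    apply card_le_card
    intro z hz
    rw [mem_image] at hz
    obtain ⟨x, hx, rfl⟩ := hz
    have := (mem_filter.1 hx).2
    rw [mem_Icc]
    omega
  rw [card_image_of_injective _ Nat.cast_injective, Int.card_Icc] at h1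
  omega

open Classical in
/-- **hubs** -/
theorem hub : ∃ s1 : ℕ, ∀ s : ℕ, s1 ≤ s → ∀ η : ℝ, 0 < η → ∃ ε : ℝ, 0 < ε ∧ ∃ C : ℕ, 1 ≤ C ∧
    ∀ (y X r : ℕ) (u δ : ℤ) (S0 : Finset ℤ) (H E : Finset ℕ), S0.card ≤ 3 → C * (y + 2) ^ C ≤ X →
      H ⊆ Icc 1 X → (∀ b ∈ H, Av s y S0 b) → (E.card : ℝ) ≤ ε * X * Pk 2 s y →
      ∀ Bad ⊆ H, (∀ b ∈ Bad, ¬ ∃ x ∈ Icc 1 X, x ∉ E ∧ x % 12 = r % 12 ∧ Fr u x ∧ Fr (b + δ) x ∧
        Nb y u x ∧ Nb y (b + δ) x) → (Bad.card : ℝ) ≤ η * X * PP (rs S0) s y := by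
  obtain ⟨a1, h1⟩ := lowS
  obtain ⟨a2, h2⟩ := upS
  obtain ⟨a3, h3⟩ := avg
  refine ⟨a1 + a2 + a3 + 100, ?_⟩
  intro s hs η hη
  obtain ⟨C1, hC1, c0, hc0, h1⟩ := h1 s (by omega)
  obtain ⟨C2, hC2, h2⟩ := h2 s (by omega)
  obtain ⟨C3, hC3, K, hK, h3⟩ := h3 s (by omega)
  obtain ⟨C4, hC4⟩ : ∃ C4 : ℕ, 400 / c0 ≤ C4 := exists_nat_ge _
  set κ : ℝ := η * c0 / 8 with hκ
  have hκ0 : 0 < κ := by positivity
  refine ⟨κ ^ 2 / K, by positivity, C1 + C2 + C3 + C4 + 14, by omega, ?_⟩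
  intro y X r u δ S0 H E hS0 hX hH hHS hE Bad hBad hBadP
  set C : ℕ := C1 + C2 + C3 + C4 + 14 with hC
  have hXi : ∀ i : ℕ, i ≤ C → i * (y + 2) ^ i ≤ X := by
    intro i hi
    refine le_trans ?_ hX
    exact Nat.mul_le_mul hi (Nat.pow_le_pow_right (by omega) hi)
  have hX1 := hXi C1 (by omega)
  have hX2 := hXi C2 (by omega)
  have hX3 := hXi C3 (by omega)
  set Su : Finset ℤ := {u, -u} with hSu
  have hSuc : Su.card ≤ 2 := card_le_two
  set P := PP (rs Su) s y with hP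
  set P0 := PP (rs S0) s y with hP0
  set P2 := Pk 2 s y with hP2
  have hPp : 0 < P := PP_pos (by omega)
  have hP0p : 0 < P0 := PP_pos (by omega)
  have hP2p : 0 < P2 := Pk_pos (by omega)
  have hP2P : P2 ≤ P := Pk_le_PP (by omega) hSuc
  have hy2 : (0 : ℝ) < (y : ℝ) + 2 := by positivity
  have hXpos : (0 : ℝ) < X := by
    have : C * (y + 2) ^ C ≤ X := hX
    have h5 : 0 < C * (y + 2) ^ C := by positivity
    exact_mod_cast lt_of_lt_of_le h5 this
  -- the size is large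
  have hbig : 200 ≤ c0 * X * P * P2 := by
    have g1 : 1 / ((y : ℝ) + 2) ^ 10 ≤ P := PP_ge (by omega) (by omega)
    have g2 : 1 / ((y : ℝ) + 2) ^ 4 ≤ P2 := Pk2_ge (by omega)
    have g3 : 1 / ((y : ℝ) + 2) ^ 14 ≤ P * P2 := by
      calc 1 / ((y : ℝ) + 2) ^ 14 = 1 / ((y : ℝ) + 2) ^ 10 * (1 / ((y : ℝ) + 2) ^ 4) := by
            rw [one_div_mul_one_div, ← pow_add]
        _ ≤ P * P2 := mul_le_mul g1 g2 (by positivity) hPp.le
    have g4 : (C4 : ℝ) * ((y : ℝ) + 2) ^ 14 ≤ X := by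
      have : C4 * (y + 2) ^ 14 ≤ X := by
        refine le_trans ?_ hX
        exact Nat.mul_le_mul (by omega) (Nat.pow_le_pow_right (by omega) (by omega))
      exact_mod_cast this
    have g5 : 400 / c0 * ((y : ℝ) + 2) ^ 14 ≤ X :=
      (mul_le_mul_of_nonneg_right hC4 (by positivity)).trans g4
    have g6 : 400 / c0 ≤ X * (1 / ((y : ℝ) + 2) ^ 14) := by
      rw [mul_one_div, le_div_iff₀ (by positivity)]
      exact g5
    have g7 : 400 / c0 ≤ X * (P * P2) := g6.trans (mul_le_mul_of_nonneg_left g3 hXpos.le)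
    rw [div_le_iff₀ hc0] at g7
    have g8 : c0 * X * P * P2 = X * (P * P2) * c0 := by ring
    rw [g8]
    linarith
  set E' : Finset ℕ := E.filter (fun x => x ∈ Icc 1 X ∧ Av s y Su x) with hE'
  set R : ℕ → ℕ → Prop := fun b x => Av s y {(x : ℤ) - δ, -(x : ℤ) - δ} b with hR
  -- every bad element has many neighbours in `E'`
  have hlow : ∀ b ∈ Bad, c0 / 4 * (X * P * P2) ≤ ((E'.filter (R b)).card : ℝ) := by
    intro b hb
    obtain ⟨T, hT1, hT2, hT3⟩ := h1 y X r (Su ∪ {(b : ℤ) + δ, -((b : ℤ) + δ)}) (by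
      refine (card_union_le _ _).trans ?_
      have : ({(b : ℤ) + δ, -((b : ℤ) + δ)} : Finset ℤ).card ≤ 2 := card_le_two
      omega) hX1
    have g1 := low2 (s := s) (y := y) (by omega) (S := Su) (U := {(b : ℤ) + δ, -((b : ℤ) + δ)}) (by omega)
      card_le_two
    have g2 : c0 / 2 * (X * P * P2) ≤ T.card := by
      refine le_trans ?_ hT2
      calc c0 / 2 * (X * P * P2) = c0 * X * (1 / 2 * (P * P2)) := by ring
        _ ≤ _ := mul_le_mul_of_nonneg_left g1 (by positivity)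
    have hsub : T \ (T.filter (fun x : ℕ => ¬ (u + 12 < (x : ℤ) ∨ (x : ℤ) + 12 < u)) ∪
        T.filter (fun x : ℕ => ¬ (((b : ℤ) + δ) + 12 < (x : ℤ) ∨ (x : ℤ) + 12 < (b : ℤ) + δ))) ⊆
        E'.filter (R b) := by
      intro x hx
      rw [mem_sdiff, mem_union, mem_filter, mem_filter] at hx
      obtain ⟨hxT, hx2⟩ := hx
      push Not at hx2
      have hx3 := hx2.1 hxT
      have hx4 := hx2.2 hxT
      obtain ⟨g3, g4⟩ := hT3 x hxT
      have hNu : Nb y u x := fun p hp hp5 hpy =>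
        ⟨g4 u (by simp [hSu]) p hp hp5 hpy, g4 (-u) (by simp [hSu]) p hp hp5 hpy⟩
      have hNb : Nb y (b + δ) x := fun p hp hp5 hpy =>
        ⟨g4 (b + δ) (by simp) p hp hp5 hpy, g4 (-(b + δ)) (by simp) p hp hp5 hpy⟩
      have hxE : x ∈ E := by
        by_contra hcon
        apply hBadP b hb
        exact ⟨x, hT1 hxT, hcon, g3, hx3, hx4, hNu, hNb⟩
      have hp5 : ∀ p ∈ Pr s y, p.Prime ∧ 5 ≤ p ∧ p ≤ y := by
        intro p hp
        obtain ⟨q1, q2⟩ := Pr_mem.1 hp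
        exact ⟨q2, by omega, q1.2⟩
      rw [mem_filter, hE', mem_filter]
      refine ⟨⟨hxE, hT1 hxT, ?_⟩, ?_⟩
      · intro c hc p hp
        obtain ⟨q1, q2, q3⟩ := hp5 p hp
        rw [hSu, mem_insert, mem_singleton] at hc
        rcases hc with rfl | rfl
        · exact (hNu p q1 q2 q3).1
        · exact (hNu p q1 q2 q3).2
      · intro c hc p hp hd
        obtain ⟨q1, q2, q3⟩ := hp5 p hp
        rw [mem_insert, mem_singleton] at hc
        rcases hc with rfl | rfl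
        · apply (hNb p q1 q2 q3).1
          have e : (x : ℤ) - (b + δ) = -((b : ℤ) - (x - δ)) := by ring
          rw [e]
          exact (dvd_neg).2 hd
        · apply (hNb p q1 q2 q3).2
          have e : (x : ℤ) - -(b + δ) = (b : ℤ) - (-x - δ) := by ring
          rw [e]
          exact hd
    have g5 := card_le_card hsub
    have g6 := le_card_sdiff (T.filter (fun x : ℕ => ¬ (u + 12 < (x : ℤ) ∨ (x : ℤ) + 12 < u)) ∪
        T.filter (fun x : ℕ => ¬ (((b : ℤ) + δ) + 12 < (x : ℤ) ∨ (x : ℤ) + 12 < (b : ℤ) + δ))) T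
    have g7 := card_union_le (T.filter (fun x : ℕ => ¬ (u + 12 < (x : ℤ) ∨ (x : ℤ) + 12 < u)))
      (T.filter (fun x : ℕ => ¬ (((b : ℤ) + δ) + 12 < (x : ℤ) ∨ (x : ℤ) + 12 < (b : ℤ) + δ)))
    have g8 := near_card u T
    have g9 := near_card ((b : ℤ) + δ) T
    have g10 : T.card ≤ (E'.filter (R b)).card + 50 := by omega
    have g11 : (T.card : ℝ) ≤ (E'.filter (R b)).card + 50 := by exact_mod_cast g10
    have g12 : c0 / 4 * (X * P * P2) = c0 * X * P * P2 / 4 := by ring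
    have g13 : c0 / 2 * (X * P * P2) = c0 * X * P * P2 / 2 := by ring
    rw [g12]
    rw [g13] at g2
    linarith
  -- the double count
  have hdc : c0 / 4 * (X * P * P2) * Bad.card ≤ ∑ x ∈ E', ((Bad.filter (fun b => R b x)).card : ℝ) := by
    have g1 : ∑ b ∈ Bad, (E'.filter (R b)).card = ∑ x ∈ E', (Bad.filter (fun b => R b x)).card :=
      sum_card_bipartiteAbove_eq_sum_card_bipartiteBelow R
    have g2 := sum_le_sum hlow
    rw [sum_const, nsmul_eq_mul] at g2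
    have g3 : ∑ b ∈ Bad, ((E'.filter (R b)).card : ℝ) =
        ∑ x ∈ E', ((Bad.filter (fun b => R b x)).card : ℝ) := by
      exact_mod_cast g1
    rw [g3] at g2
    linarith
  -- the upper bound for one element
  set Tt : Finset ℤ := insert 0 (S0.image (fun σ => δ + σ) ∪ S0.image (fun σ => -δ - σ)) with hTt
  have hTtc : Tt.card ≤ 7 := by
    refine (card_insert_le _ _).trans ?_
    refine (Nat.add_le_add_right ((card_union_le _ _).trans
      (Nat.add_le_add card_image_le card_image_le)) 1).trans ?_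
    omega
  have hone : ∀ x ∈ E', ((Bad.filter (fun b => R b x)).card : ℝ) ≤ 2 * X * (P0 * P2 *
      Real.exp (∑ p ∈ (Pr s y).filter (fun p : ℕ => ∃ τ ∈ Tt, (p : ℤ) ∣ (x : ℤ) - τ), 4 / (p : ℝ))) := by
    intro x _
    have hcU : (S0 ∪ {(x : ℤ) - δ, -(x : ℤ) - δ}).card ≤ 5 := by
      refine (card_union_le _ _).trans ?_
      have : ({(x : ℤ) - δ, -(x : ℤ) - δ} : Finset ℤ).card ≤ 2 := card_le_two
      omega
    have g1 := h2 y X (S0 ∪ {(x : ℤ) - δ, -(x : ℤ) - δ}) hcU hX2 (Bad.filter (fun b => R b x))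
      ((filter_subset _ _).trans (hBad.trans hH)) (by
        intro b hb c hc
        obtain ⟨hb1, hb2⟩ := mem_filter.1 hb
        rcases mem_union.1 hc with h | h
        · exact hHS b (hBad hb1) c h
        · exact hb2 c h)
    have g2 := up2 (s := s) (y := y) (by omega) (S := S0) (S' := S0 ∪ {(x : ℤ) - δ, -(x : ℤ) - δ}) hS0
      subset_union_left hcU (fun p : ℕ => ∃ τ ∈ Tt, (p : ℤ) ∣ (x : ℤ) - τ) (by
        intro p hp hnb
        push Not at hnb
        obtain ⟨q1, q2⟩ := Pr_mem.1 hp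
        have hp0 : 0 < p := q2.pos
        have hpz : (0 : ℤ) < p := by exact_mod_cast hp0
        have hun : rs (S0 ∪ {(x : ℤ) - δ, -(x : ℤ) - δ}) p = rs S0 p ∪ rs {(x : ℤ) - δ, -(x : ℤ) - δ} p :=
          image_union _ _
        have hdisj : Disjoint (rs S0 p) (rs {(x : ℤ) - δ, -(x : ℤ) - δ} p) := by
          rw [disjoint_left]
          intro c hc1 hc2
          unfold rs at hc2
          rw [mem_image] at hc2
          obtain ⟨e, he, rfl⟩ := hc2
          rw [mem_rsZ hp0] at hc1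
          obtain ⟨σ, hσ, hd⟩ := hc1
          rw [mem_insert, mem_singleton] at he
          rcases he with rfl | rfl
          · refine hnb (δ + σ) ?_ ?_
            · rw [hTt, mem_insert, mem_union, mem_image]
              exact Or.inr (Or.inl ⟨σ, hσ, rfl⟩)
            · have e : (x : ℤ) - (δ + σ) = x - δ - σ := by ring
              rw [e]
              exact hd
          · refine hnb (-δ - σ) ?_ ?_
            · rw [hTt, mem_insert, mem_union, mem_image, mem_image]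
              exact Or.inr (Or.inr ⟨σ, hσ, rfl⟩)
            · have e : (x : ℤ) - (-δ - σ) = -(-x - δ - σ) := by ring
              rw [e]
              exact (dvd_neg).2 hd
        have hc2 : (rs {(x : ℤ) - δ, -(x : ℤ) - δ} p).card = 2 := by
          unfold rs
          rw [image_insert, image_singleton, card_pair]
          intro heq
          have w1 : (0 : ℤ) ≤ ((x : ℤ) - δ) % p := Int.emod_nonneg _ hpz.ne'
          have w2 : (0 : ℤ) ≤ (-(x : ℤ) - δ) % p := Int.emod_nonneg _ hpz.ne'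
          have w3 : ((x : ℤ) - δ) % p = (-(x : ℤ) - δ) % p := by omega
          have w4 : (p : ℤ) ∣ (-(x : ℤ) - δ) - (x - δ) := Int.ModEq.dvd w3
          have w5 : (-(x : ℤ) - δ) - (x - δ) = (-2) * x := by ring
          rw [w5] at w4
          rcases (Nat.prime_iff_prime_int.1 q2).dvd_or_dvd w4 with h | h
          · have : (p : ℤ) ≤ 2 := Int.le_of_dvd (by norm_num) ((dvd_neg).1 h)
            omega
          · refine hnb 0 ?_ ?_
            · rw [hTt]
              exact mem_insert_self _ _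
            · rw [sub_zero]
              exact h
        rw [hun, card_union_of_disjoint hdisj, hc2])
    refine g1.trans (mul_le_mul_of_nonneg_left ?_ (by positivity))
    convert g2
    rfl
  -- the averages
  set g : ℕ → ℝ := fun x =>
    Real.exp (∑ p ∈ (Pr s y).filter (fun p : ℕ => ∃ τ ∈ Tt, (p : ℤ) ∣ (x : ℤ) - τ), 4 / (p : ℝ)) with hg
  have hE'c : (E'.card : ℝ) ≤ κ ^ 2 / K * X * P2 := by
    refine le_trans ?_ hE
    exact_mod_cast card_filter_le _ _
  have hsq : (∑ x ∈ E', g x) ^ 2 ≤ (κ * X * P) ^ 2 := by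
    have k1 : (∑ x ∈ E', g x) ^ 2 ≤ E'.card * ∑ x ∈ E', g x ^ 2 := sq_sum_le_card_mul_sum_sq
    have k2 : ∑ x ∈ E', g x ^ 2 ≤ K * X * P := by
      have := h3 y X Su Tt E' (by omega) hTtc hX3 (fun x hx => (mem_filter.1 hx).2.1)
        (fun x hx => (mem_filter.1 hx).2.2)
      refine le_trans (le_of_eq ?_) this
      apply sum_congr rfl
      intro x _
      simp only [hg]
      rw [← Real.exp_nat_mul, mul_sum]
      congr 1
      apply sum_congr rfl
      intro p _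
      push_cast
      ring
    calc (∑ x ∈ E', g x) ^ 2 ≤ E'.card * ∑ x ∈ E', g x ^ 2 := k1
      _ ≤ (κ ^ 2 / K * X * P2) * (K * X * P) :=
          mul_le_mul hE'c k2 (sum_nonneg fun x _ => by positivity) (by positivity)
      _ = κ ^ 2 * X ^ 2 * P * P2 := by field_simp
      _ ≤ κ ^ 2 * X ^ 2 * P * P := mul_le_mul_of_nonneg_left hP2P (by positivity)
      _ = (κ * X * P) ^ 2 := by ring
  have hs1 : ∑ x ∈ E', g x ≤ κ * X * P := by
    rw [← pow_le_pow_iff_left₀ (sum_nonneg fun x _ => by positivity) (by positivity)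
      (show (2 : ℕ) ≠ 0 by norm_num)]
    exact hsq
  have hfin : c0 / 4 * (X * P * P2) * Bad.card ≤ 2 * X * (P0 * P2) * (κ * X * P) := by
    calc c0 / 4 * (X * P * P2) * Bad.card ≤ ∑ x ∈ E', ((Bad.filter (fun b => R b x)).card : ℝ) := hdc
      _ ≤ ∑ x ∈ E', 2 * X * (P0 * P2 * g x) := sum_le_sum hone
      _ = 2 * X * (P0 * P2) * ∑ x ∈ E', g x := by
          rw [mul_sum]
          apply sum_congr rfl
          intro x _
          ring
      _ ≤ 2 * X * (P0 * P2) * (κ * X * P) := mul_le_mul_of_nonneg_left hs1 (by positivity)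
  have hpos : 0 < c0 / 4 * (X * P * P2) := by positivity
  have hfin2 : 2 * X * (P0 * P2) * (κ * X * P) = c0 / 4 * (X * P * P2) * (η * X * P0) := by
    rw [hκ]
    ring
  rw [hfin2] at hfin
  exact le_of_mul_le_mul_left hfin hpos

end Pool.Agent.Q107.GB
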