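import Pool.Agent.Q107.GB.Sv

set_option autoImplicit false

/-!
# Products over primes
-/

namespace Pool.Agent.Q107.GB

open Finset Pool.Agent.Y843.HS Pool.Agent.Q102.GG

/-- `∏ (1 - k / p)` over the primes of `(s, y]` -/
noncomputable def Pk (k s y : ℕ) : ℝ := ∏ p ∈ Pr s y, (1 - (k : ℝ) / p)

lemma sum_sq_le {s y : ℕ} (hs : 1 ≤ s) : ∑ p ∈ Pr s y, (1 : ℝ) / (p : ℝ) ^ 2 ≤ 1 / s := by
  rcases Nat.lt_or_ge y s with h | h
  · have : Pr s y = ∅ := by
      unfold Pr
      rw [Ioc_eq_empty (by omega), filter_empty]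
    rw [this, sum_empty]
    positivity
  · calc ∑ p ∈ Pr s y, (1 : ℝ) / (p : ℝ) ^ 2 ≤ ∑ p ∈ Ioc s y, ((p : ℝ) ^ 2)⁻¹ := by
          simp_rw [one_div]
          apply sum_le_sum_of_subset_of_nonneg (filter_subset _ _)
          intro i _ _
          positivity
      _ ≤ (s : ℝ)⁻¹ - (y : ℝ)⁻¹ := sum_Ioc_inv_sq_le_sub (by omega) h
      _ ≤ 1 / s := by
          rw [one_div]
          have : (0 : ℝ) ≤ (y : ℝ)⁻¹ := by positivity
          linarith

lemma prod_one_sub_ge (Q : Finset ℕ) (f : ℕ → ℝ) (h0 : ∀ i ∈ Q, 0 ≤ f i) (h1 : ∀ i ∈ Q, f i ≤ 1) :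
    1 - ∑ i ∈ Q, f i ≤ ∏ i ∈ Q, (1 - f i) := by
  induction Q using Finset.induction_on with
  | empty => simp
  | insert a Q ha ih =>
    rw [sum_insert ha, prod_insert ha]
    have ih' := ih (fun i hi => h0 i (mem_insert_of_mem hi)) (fun i hi => h1 i (mem_insert_of_mem hi))
    have ha0 := h0 a (mem_insert_self _ _)
    have ha1 := h1 a (mem_insert_self _ _)
    have hs : 0 ≤ ∑ i ∈ Q, f i := sum_nonneg fun i hi => h0 i (mem_insert_of_mem hi)
    have h2 : (1 - f a) * (1 - ∑ i ∈ Q, f i) ≤ (1 - f a) * ∏ i ∈ Q, (1 - f i) :=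
      mul_le_mul_of_nonneg_left ih' (by linarith)
    nlinarith

lemma fac_nonneg {k p : ℕ} (h : k ≤ p) (hp : 0 < p) : (0 : ℝ) ≤ 1 - (k : ℝ) / p := by
  rw [sub_nonneg, div_le_one (by exact_mod_cast hp)]
  exact_mod_cast h

/-- the codegree product from below -/
lemma low2 {s y : ℕ} (hs : 100 ≤ s) {S U : Finset ℤ} (hS : S.card ≤ 3) (hU : U.card ≤ 2) :
    1 / 2 * (PP (rs S) s y * Pk 2 s y) ≤ PP (rs (S ∪ U)) s y := by
  have h24 : (1 : ℝ) / 2 ≤ ∏ p ∈ Pr s y, (1 - 24 / (p : ℝ) ^ 2) := by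
    have hp100 : ∀ p ∈ Pr s y, (100 : ℝ) ≤ p := by
      intro p hp
      have := (Pr_mem.1 hp).1.1
      exact_mod_cast (by omega : 100 ≤ p)
    have h1 := prod_one_sub_ge (Pr s y) (fun p => 24 / (p : ℝ) ^ 2) (fun p _ => by positivity) (by
      intro p hp
      have := hp100 p hp
      rw [div_le_one (by positivity)]
      nlinarith)
    refine le_trans ?_ h1
    have h2 : ∑ p ∈ Pr s y, 24 / (p : ℝ) ^ 2 = 24 * ∑ p ∈ Pr s y, 1 / (p : ℝ) ^ 2 := by
      rw [mul_sum]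
      apply sum_congr rfl
      intro p _
      ring
    rw [h2]
    have h3 := sum_sq_le (s := s) (y := y) (by omega)
    have h4 : (1 : ℝ) / s ≤ 1 / 100 := by
      apply one_div_le_one_div_of_le (by norm_num)
      exact_mod_cast hs
    linarith
  have h5 : (∏ p ∈ Pr s y, (1 - 24 / (p : ℝ) ^ 2)) * (PP (rs S) s y * Pk 2 s y) ≤
      PP (rs (S ∪ U)) s y := by
    unfold PP Pk
    rw [← prod_mul_distrib, ← prod_mul_distrib]
    have hf : ∀ p ∈ Pr s y, (100 : ℝ) < p ∧ (rs S p).card ≤ 3 ∧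
        (rs (S ∪ U) p).card ≤ (rs S p).card + 2 := by
      intro p hp
      have := (Pr_mem.1 hp).1.1
      refine ⟨by exact_mod_cast (by omega : 100 < p), rs_card.trans hS, ?_⟩
      have h6 : rs (S ∪ U) p = rs S p ∪ rs U p := image_union _ _
      rw [h6]
      exact (card_union_le _ _).trans (Nat.add_le_add_left (rs_card.trans hU) _)
    apply prod_le_prod
    · intro p hp
      obtain ⟨h7, h8, h9⟩ := hf p hp
      have h10 : ((rs S p).card : ℝ) ≤ 3 := by exact_mod_cast h8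
      have e1 : (0 : ℝ) ≤ 1 - 24 / (p : ℝ) ^ 2 := by
        rw [sub_nonneg, div_le_one (by positivity)]
        nlinarith
      have e2 : (0 : ℝ) ≤ 1 - ((rs S p).card : ℝ) / p := by
        rw [sub_nonneg, div_le_one (by linarith)]
        linarith
      have e3 : (0 : ℝ) ≤ 1 - ((2 : ℕ) : ℝ) / p := by
        rw [sub_nonneg, div_le_one (by linarith)]
        push_cast
        linarith
      positivity
    · intro p hp
      obtain ⟨h7, h8, h9⟩ := hf p hp
      obtain ⟨k, hk⟩ : ∃ k : ℝ, k = ((rs S p).card : ℝ) := ⟨_, rfl⟩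
      have hk3 : k ≤ 3 := by rw [hk]; exact_mod_cast h8
      have hk0 : 0 ≤ k := by rw [hk]; positivity
      have h9' : ((rs (S ∪ U) p).card : ℝ) ≤ k + 2 := by rw [hk]; exact_mod_cast h9
      have hp0 : (0 : ℝ) < p := by linarith
      rw [← hk]
      have h11 : 1 - (k + 2) / (p : ℝ) ≤ 1 - ((rs (S ∪ U) p).card : ℝ) / p := by
        have := div_le_div_of_nonneg_right h9' hp0.le
        linarith
      refine le_trans ?_ h11
      push_cast
      obtain ⟨x, hx⟩ : ∃ x : ℝ, x = 1 / (p : ℝ) := ⟨_, rfl⟩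
      have hx0 : 0 ≤ x := by rw [hx]; positivity
      have hx1 : x ≤ 1 / 100 := by
        rw [hx]
        apply one_div_le_one_div_of_le (by norm_num)
        exact h7.le
      have e1 : 24 / (p : ℝ) ^ 2 = 24 * x ^ 2 := by rw [hx]; ring
      have e2 : k / (p : ℝ) = k * x := by rw [hx]; ring
      have e3 : 2 / (p : ℝ) = 2 * x := by rw [hx]; ring
      have e4 : (k + 2) / (p : ℝ) = (k + 2) * x := by rw [hx]; ring
      rw [e1, e2, e3, e4]
      have hA : (1 : ℝ) / 4 ≤ (1 - k * x) * (1 - 2 * x) := by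
        have q1 : (1 : ℝ) / 2 ≤ 1 - k * x := by nlinarith
        have q2 : (1 : ℝ) / 2 ≤ 1 - 2 * x := by linarith
        nlinarith
      have hA2 : (1 - k * x) * (1 - 2 * x) = 1 - (k + 2) * x + 2 * k * x ^ 2 := by ring
      have hA3 : 2 * k * x ^ 2 ≤ 24 * x ^ 2 * ((1 - k * x) * (1 - 2 * x)) := by
        have := mul_le_mul_of_nonneg_left hA (show 0 ≤ 24 * x ^ 2 by positivity)
        nlinarith [sq_nonneg x]
      nlinarith
  refine le_trans ?_ h5
  apply mul_le_mul_of_nonneg_right h24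
  unfold PP Pk
  apply mul_nonneg
  · apply prod_nonneg
    intro p hp
    have h1 := (Pr_mem.1 hp).1.1
    have : (rs S p).card ≤ S.card := rs_card
    exact fac_nonneg (by omega) (by omega)
  · apply prod_nonneg
    intro p hp
    have h1 := (Pr_mem.1 hp).1.1
    exact fac_nonneg (by omega) (by omega)

open Classical in
/-- the codegree product from above -/
lemma up2 {s y : ℕ} (hs : 100 ≤ s) {S S' : Finset ℤ} (hS : S.card ≤ 3) (hSS : S ⊆ S')
    (hS' : S'.card ≤ 5) (bad : ℕ → Prop)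
    (hb : ∀ p ∈ Pr s y, ¬ bad p → (rs S p).card + 2 ≤ (rs S' p).card) :
    PP (rs S') s y ≤ PP (rs S) s y * Pk 2 s y *
      Real.exp (∑ p ∈ (Pr s y).filter bad, 4 / (p : ℝ)) := by
  have h1 : Real.exp (∑ p ∈ (Pr s y).filter bad, 4 / (p : ℝ)) =
      ∏ p ∈ Pr s y, (if bad p then Real.exp (4 / (p : ℝ)) else 1) := by
    rw [Real.exp_sum, prod_filter]
  rw [h1]
  unfold PP Pk
  rw [← prod_mul_distrib, ← prod_mul_distrib]
  apply prod_le_prod
  · intro p hp
    have h1 := (Pr_mem.1 hp).1.1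
    have : (rs S' p).card ≤ S'.card := rs_card
    exact fac_nonneg (by omega) (by omega)
  · intro p hp
    have h2 := (Pr_mem.1 hp).1.1
    have hp100 : (100 : ℝ) < p := by exact_mod_cast (by omega : 100 < p)
    have hp0 : (0 : ℝ) < p := by linarith
    have h3 : (rs S p).card ≤ (rs S' p).card := card_le_card (rs_mono hSS p)
    have hSc : (rs S p).card ≤ 3 := rs_card.trans hS
    obtain ⟨k, hk⟩ : ∃ k : ℝ, k = ((rs S p).card : ℝ) := ⟨_, rfl⟩
    have hk3 : k ≤ 3 := by rw [hk]; exact_mod_cast hSc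
    have hk0 : 0 ≤ k := by rw [hk]; positivity
    obtain ⟨x, hx⟩ : ∃ x : ℝ, x = 1 / (p : ℝ) := ⟨_, rfl⟩
    have hx0 : 0 ≤ x := by rw [hx]; positivity
    have hx1 : x ≤ 1 / 100 := by
      rw [hx]
      apply one_div_le_one_div_of_le (by norm_num)
      exact hp100.le
    rw [← hk]
    have e2 : k / (p : ℝ) = k * x := by rw [hx]; ring
    have e3 : ((2 : ℕ) : ℝ) / (p : ℝ) = 2 * x := by rw [hx]; push_cast; ring
    have e4 : 4 / (p : ℝ) = 4 * x := by rw [hx]; ring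
    have e5 : ((rs S' p).card : ℝ) / p = (rs S' p).card * x := by rw [hx]; ring
    rw [e2, e3, e4, e5]
    split_ifs with h4
    · have h5 : k ≤ ((rs S' p).card : ℝ) := by rw [hk]; exact_mod_cast h3
      have h6 : k * x ≤ (rs S' p).card * x := mul_le_mul_of_nonneg_right h5 hx0
      have h7 : 1 + 4 * x ≤ Real.exp (4 * x) := by
        have := Real.add_one_le_exp (4 * x)
        linarith
      have h8 : (1 : ℝ) ≤ (1 - 2 * x) * Real.exp (4 * x) := by
        have : (1 : ℝ) ≤ (1 - 2 * x) * (1 + 4 * x) := by nlinarith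
        refine this.trans ?_
        apply mul_le_mul_of_nonneg_left h7
        linarith
      have h9 : 0 ≤ 1 - k * x := by nlinarith
      calc 1 - ((rs S' p).card : ℝ) * x ≤ 1 - k * x := by linarith
        _ = (1 - k * x) * 1 := by ring
        _ ≤ (1 - k * x) * ((1 - 2 * x) * Real.exp (4 * x)) := mul_le_mul_of_nonneg_left h8 h9
        _ = (1 - k * x) * (1 - 2 * x) * Real.exp (4 * x) := by ring
    · have h5 : k + 2 ≤ ((rs S' p).card : ℝ) := by
        rw [hk]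
        exact_mod_cast hb p hp h4
      have h6 : (k + 2) * x ≤ (rs S' p).card * x := mul_le_mul_of_nonneg_right h5 hx0
      rw [mul_one]
      nlinarith [mul_nonneg hk0 (sq_nonneg x)]

lemma Pk_le_PP {s y k : ℕ} (hs : k ≤ s) {S : Finset ℤ} (hS : S.card ≤ k) :
    Pk k s y ≤ PP (rs S) s y := by
  unfold PP Pk
  apply prod_le_prod
  · intro p hp
    have h1 := (Pr_mem.1 hp).1.1
    exact fac_nonneg (by omega) (by omega)
  · intro p hp
    have h1 := (Pr_mem.1 hp).1.1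
    have h0 : (0 : ℝ) < p := by exact_mod_cast (by omega : 0 < p)
    have : ((rs S p).card : ℝ) ≤ k := by exact_mod_cast rs_card.trans hS
    have := div_le_div_of_nonneg_right this h0.le
    linarith

lemma Pk_pos {k s y : ℕ} (hs : k ≤ s) : 0 < Pk k s y := by
  apply prod_pos
  intro p hp
  have h1 := (Pr_mem.1 hp).1.1
  have h0 : (0 : ℝ) < p := by exact_mod_cast (by omega : 0 < p)
  rw [sub_pos, div_lt_one h0]
  exact_mod_cast (by omega : k < p)

lemma Pk_le_one {k s y : ℕ} (hs : k ≤ s) : Pk k s y ≤ 1 := by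
  apply prod_le_one
  · intro p hp
    have h1 := (Pr_mem.1 hp).1.1
    exact fac_nonneg (by omega) (by omega)
  · intro p hp
    have : (0 : ℝ) ≤ (k : ℝ) / p := by positivity
    linarith

lemma PP_le_one {s y : ℕ} {S : Finset ℤ} (hs : S.card ≤ s) : PP (rs S) s y ≤ 1 := by
  apply prod_le_one
  · intro p hp
    have h1 := (Pr_mem.1 hp).1.1
    have : (rs S p).card ≤ S.card := rs_card
    exact fac_nonneg (by omega) (by omega)
  · intro p hp
    have : (0 : ℝ) ≤ ((rs S p).card : ℝ) / p := by positivity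
    linarith

/-- Mertens from below -/
lemma Pk_ge (k : ℕ) : ∃ c : ℝ, 0 < c ∧ ∀ s y : ℕ, 2 * k ^ 2 + 2 * k + 3 ≤ s → 3 ≤ y →
    c / Real.log y ^ k ≤ Pk k s y := by
  obtain ⟨c, hc, H⟩ := EE_log
  refine ⟨Real.exp (-1) / c ^ k, by positivity, ?_⟩
  intro s y hs hy
  have hl1 : 1 ≤ Real.log y := by
    have h3 : (3 : ℝ) ≤ y := by exact_mod_cast hy
    have : Real.exp 1 ≤ y := by
      have := Real.exp_one_lt_d9
      linarith
    rw [Real.le_log_iff_exp_le (by linarith)]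
    exact this
  have he : Real.exp (-1) ≤ 1 := by rw [Real.exp_le_one_iff]; norm_num
  rcases Nat.lt_or_ge y s with h | h
  · have : Pr s y = ∅ := by
      unfold Pr
      rw [Ioc_eq_empty (by omega), filter_empty]
    unfold Pk
    rw [this, prod_empty, div_div, div_le_one (by positivity)]
    refine he.trans ?_
    rw [← mul_pow]
    apply one_le_pow₀
    nlinarith
  have h1 : ∀ p ∈ Pr s y, Real.exp (-((k : ℝ) * (1 / p)) - 2 * k ^ 2 * (1 / (p : ℝ) ^ 2)) ≤
      1 - (k : ℝ) / p := by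
    intro p hp
    have hp1 := (Pr_mem.1 hp).1.1
    have hp0 : (0 : ℝ) < p := by exact_mod_cast (by omega : 0 < p)
    obtain ⟨x, hx⟩ : ∃ x : ℝ, x = (k : ℝ) / p := ⟨_, rfl⟩
    have hx0 : 0 ≤ x := by rw [hx]; positivity
    have hx1 : x ≤ 1 / 2 := by
      rw [hx, div_le_iff₀ hp0]
      have : 2 * k ≤ p := by omega
      have : 2 * (k : ℝ) ≤ p := by exact_mod_cast this
      linarith
    have e1 : -((k : ℝ) * (1 / p)) - 2 * k ^ 2 * (1 / (p : ℝ) ^ 2) = -(x + 2 * x ^ 2) := by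
      rw [hx]; ring
    rw [e1, ← hx, Real.exp_neg]
    have h2 : x / (1 - x) ≤ x + 2 * x ^ 2 := by
      rw [div_le_iff₀ (by linarith)]
      nlinarith [sq_nonneg x]
    have h3 : (1 - x)⁻¹ ≤ Real.exp (x + 2 * x ^ 2) := by
      have h4 := Real.add_one_le_exp (x / (1 - x))
      have h5 : x / (1 - x) + 1 = (1 - x)⁻¹ := by
        have : (1 - x) ≠ 0 := by linarith
        field_simp
        ring
      rw [h5] at h4
      exact h4.trans (Real.exp_le_exp.2 h2)
    have h5 : (0 : ℝ) < 1 - x := by linarith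
    have h6 := inv_anti₀ (inv_pos.2 h5) h3
    rwa [inv_inv] at h6
  have h2 : Real.exp (-((k : ℝ) * ∑ p ∈ Pr s y, 1 / (p : ℝ)) -
      2 * k ^ 2 * ∑ p ∈ Pr s y, 1 / (p : ℝ) ^ 2) ≤ Pk k s y := by
    unfold Pk
    rw [mul_sum, mul_sum, ← sum_neg_distrib, ← sum_sub_distrib, Real.exp_sum]
    exact prod_le_prod (fun p _ => (Real.exp_pos _).le) h1
  refine le_trans ?_ h2
  have h3 := sum_sq_le (s := s) (y := y) (by omega)
  have h4 : 2 * (k : ℝ) ^ 2 * ∑ p ∈ Pr s y, 1 / (p : ℝ) ^ 2 ≤ 1 := by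
    have hs0 : (0 : ℝ) < s := by exact_mod_cast (by omega : 0 < s)
    calc 2 * (k : ℝ) ^ 2 * ∑ p ∈ Pr s y, 1 / (p : ℝ) ^ 2 ≤ 2 * (k : ℝ) ^ 2 * (1 / s) :=
          mul_le_mul_of_nonneg_left h3 (by positivity)
      _ ≤ 1 := by
          rw [mul_one_div, div_le_one hs0]
          exact_mod_cast (by omega : 2 * k ^ 2 ≤ s)
  have h5 : Real.exp (-1) / (EE s y) ^ k ≤ Real.exp (-((k : ℝ) * ∑ p ∈ Pr s y, 1 / (p : ℝ)) -
      2 * k ^ 2 * ∑ p ∈ Pr s y, 1 / (p : ℝ) ^ 2) := by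
    unfold EE
    rw [← Real.exp_nat_mul, ← Real.exp_sub]
    apply Real.exp_le_exp.2
    linarith
  refine le_trans ?_ h5
  rw [div_div]
  apply div_le_div_of_nonneg_left (Real.exp_pos _).le
  · have := one_le_EE s y
    positivity
  · rw [← mul_pow]
    have := one_le_EE s y
    exact pow_le_pow_left₀ (by linarith) (H s y (by omega) h) k

/-- Mertens from above -/
lemma Pk_le (k s : ℕ) (hs : k + 3 ≤ s) : ∃ C : ℝ, 0 < C ∧ ∀ y : ℕ, 3 ≤ y →
    Pk k s y ≤ C / Real.log y ^ k := by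
  obtain ⟨C, hC0, hC⟩ := Pool.Agent.Helper923.HMertens.mertens_ratio
  have hls : 0 < Real.log s := Real.log_pos (by exact_mod_cast (by omega : 1 < s))
  refine ⟨Real.log s ^ k * Real.exp (k * (C / Real.log s)), by positivity, ?_⟩
  intro y hy
  have hly : 0 < Real.log y := Real.log_pos (by exact_mod_cast (by omega : 1 < y))
  have he : 1 ≤ Real.exp (k * (C / Real.log s)) := Real.one_le_exp_iff.2 (by positivity)
  rw [le_div_iff₀ (by positivity)]
  rcases Nat.lt_or_ge y s with h | h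
  · have h1 : Real.log y ≤ Real.log s := Real.log_le_log (by exact_mod_cast (by omega : 0 < y))
      (by exact_mod_cast h.le)
    calc Pk k s y * Real.log y ^ k ≤ 1 * Real.log s ^ k := by
          apply mul_le_mul (Pk_le_one (by omega)) (pow_le_pow_left₀ hly.le h1 _) (by positivity)
            (by norm_num)
      _ = Real.log s ^ k * 1 := by ring
      _ ≤ Real.log s ^ k * Real.exp (k * (C / Real.log s)) :=
          mul_le_mul_of_nonneg_left he (by positivity)
  · have h1 := (abs_le.1 (hC s y (by omega) h)).1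
    have h2 : Real.log (Real.log y / Real.log s) - C / Real.log s ≤ ∑ p ∈ Pr s y, (1 : ℝ) / p := by
      unfold Pr
      linarith
    have h3 : Pk k s y ≤ Real.exp (-(k * ∑ p ∈ Pr s y, (1 : ℝ) / p)) := by
      rw [mul_sum, ← sum_neg_distrib, Real.exp_sum]
      unfold Pk
      apply prod_le_prod
      · intro p hp
        have h1 := (Pr_mem.1 hp).1.1
        exact fac_nonneg (by omega) (by omega)
      · intro p _
        have := Real.add_one_le_exp (-((k : ℝ) * (1 / p)))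
        have e : (k : ℝ) * (1 / p) = k / p := by ring
        rw [e] at this ⊢
        linarith
    have h4 : Real.exp (-(k * ∑ p ∈ Pr s y, (1 : ℝ) / p)) ≤
        Real.exp (k * (C / Real.log s)) * (Real.log s / Real.log y) ^ k := by
      have h5 : (Real.log s / Real.log y) ^ k = Real.exp (-(k * Real.log (Real.log y / Real.log s))) := by
        rw [← mul_neg, ← Real.log_inv, inv_div, Real.exp_nat_mul, Real.exp_log (by positivity)]
      rw [h5, ← Real.exp_add]
      apply Real.exp_le_exp.2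
      have hk : (0 : ℝ) ≤ k := Nat.cast_nonneg k
      nlinarith
    calc Pk k s y * Real.log y ^ k ≤
        (Real.exp (k * (C / Real.log s)) * (Real.log s / Real.log y) ^ k) * Real.log y ^ k :=
          mul_le_mul_of_nonneg_right (h3.trans h4) (by positivity)
      _ = Real.log s ^ k * Real.exp (k * (C / Real.log s)) := by
          rw [div_pow]
          field_simp

lemma tower_sum : ∃ E : ℝ, 0 ≤ E ∧ ∀ j J : ℕ, j ≤ J →
    ∑ p ∈ Pr (2 ^ 2 ^ j) (2 ^ 2 ^ J), 1 / ((p : ℝ) * Real.log p) ≤ E * (2 / 2 ^ j - 2 / 2 ^ J) := by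
  obtain ⟨c, hc, H⟩ := EE_tower
  have hl2 : (0 : ℝ) < Real.log 2 := Real.log_pos (by norm_num)
  have hlc : 0 ≤ Real.log (c * 2) := Real.log_nonneg (by linarith)
  refine ⟨Real.log (c * 2) / Real.log 2, by positivity, ?_⟩
  intro j J hJ
  induction J, hJ using Nat.le_induction with
  | base =>
    have : Pr (2 ^ 2 ^ j) (2 ^ 2 ^ j) = ∅ := by
      unfold Pr
      rw [Ioc_self, filter_empty]
    rw [this, sum_empty]
    simp
  | succ J hJ ih =>
    have hmono : 2 ^ 2 ^ j ≤ 2 ^ 2 ^ J := Nat.pow_le_pow_right (by norm_num)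
      (Nat.pow_le_pow_right (by norm_num) hJ)
    have hmono2 : 2 ^ 2 ^ J ≤ 2 ^ 2 ^ (J + 1) := Nat.pow_le_pow_right (by norm_num)
      (Nat.pow_le_pow_right (by norm_num) (by omega))
    have hsub : Pr (2 ^ 2 ^ j) (2 ^ 2 ^ (J + 1)) ⊆ Pr (2 ^ 2 ^ j) (2 ^ 2 ^ J) ∪
        Pr (2 ^ 2 ^ J) (2 ^ 2 ^ (J + 1)) := by
      intro p hp
      rw [mem_union, Pr_mem, Pr_mem]
      rw [Pr_mem] at hp
      rcases le_or_gt p (2 ^ 2 ^ J) with h | h
      · exact Or.inl ⟨⟨hp.1.1, h⟩, hp.2⟩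
      · exact Or.inr ⟨⟨h, hp.1.2⟩, hp.2⟩
    have hnn : ∀ p : ℕ, (0 : ℝ) ≤ 1 / ((p : ℝ) * Real.log p) := by
      intro p
      have : 0 ≤ Real.log p := Real.log_natCast_nonneg p
      positivity
    have h1 := sum_le_sum_of_subset_of_nonneg (f := fun p : ℕ => 1 / ((p : ℝ) * Real.log p)) hsub
      (fun p _ _ => hnn p)
    have h2 : ∑ p ∈ Pr (2 ^ 2 ^ j) (2 ^ 2 ^ J) ∪ Pr (2 ^ 2 ^ J) (2 ^ 2 ^ (J + 1)),
        1 / ((p : ℝ) * Real.log p) ≤ ∑ p ∈ Pr (2 ^ 2 ^ j) (2 ^ 2 ^ J), 1 / ((p : ℝ) * Real.log p) +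
          ∑ p ∈ Pr (2 ^ 2 ^ J) (2 ^ 2 ^ (J + 1)), 1 / ((p : ℝ) * Real.log p) := by
      rw [← sum_union_inter]
      have := sum_nonneg (s := Pr (2 ^ 2 ^ j) (2 ^ 2 ^ J) ∩ Pr (2 ^ 2 ^ J) (2 ^ 2 ^ (J + 1)))
        (f := fun p : ℕ => 1 / ((p : ℝ) * Real.log p)) (fun p _ => hnn p)
      linarith
    have h3 : ∑ p ∈ Pr (2 ^ 2 ^ J) (2 ^ 2 ^ (J + 1)), 1 / ((p : ℝ) * Real.log p) ≤
        Real.log (c * 2) / Real.log 2 * (1 / 2 ^ J) := by
      have h4 : ∀ p ∈ Pr (2 ^ 2 ^ J) (2 ^ 2 ^ (J + 1)), 1 / ((p : ℝ) * Real.log p) ≤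
          1 / (2 ^ J * Real.log 2) * (1 / (p : ℝ)) := by
        intro p hp
        have hp1 := (Pr_mem.1 hp).1.1
        have hp0 : (0 : ℝ) < p := by exact_mod_cast lt_of_le_of_lt (Nat.zero_le _) hp1
        have h5 : 2 ^ J * Real.log 2 ≤ Real.log p := by
          have : Real.log (((2 ^ 2 ^ J : ℕ) : ℝ)) ≤ Real.log p := by
            apply Real.log_le_log
            · positivity
            · exact_mod_cast hp1.le
          push_cast at this
          rw [Real.log_pow] at this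
          push_cast at this
          exact this
        rw [one_div_mul_one_div, mul_comm (p : ℝ)]
        apply one_div_le_one_div_of_le (by positivity)
        exact mul_le_mul_of_nonneg_right h5 hp0.le
      have h6 := sum_le_sum h4
      rw [← mul_sum] at h6
      have h7 : ∑ p ∈ Pr (2 ^ 2 ^ J) (2 ^ 2 ^ (J + 1)), 1 / (p : ℝ) ≤ Real.log (c * 2) := by
        have h8 := H 1 (J + 1) (by omega)
        simp only [Nat.add_sub_cancel, pow_one] at h8
        unfold EE at h8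
        rw [Real.le_log_iff_exp_le (by linarith)]
        exact h8
      refine h6.trans ?_
      calc 1 / (2 ^ J * Real.log 2) * ∑ p ∈ Pr (2 ^ 2 ^ J) (2 ^ 2 ^ (J + 1)), 1 / (p : ℝ) ≤
          1 / (2 ^ J * Real.log 2) * Real.log (c * 2) := mul_le_mul_of_nonneg_left h7 (by positivity)
        _ = Real.log (c * 2) / Real.log 2 * (1 / 2 ^ J) := by field_simp
    have h9 : Real.log (c * 2) / Real.log 2 * (2 / 2 ^ j - 2 / 2 ^ J) +
        Real.log (c * 2) / Real.log 2 * (1 / 2 ^ J) =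
        Real.log (c * 2) / Real.log 2 * (2 / 2 ^ j - 2 / 2 ^ (J + 1)) := by
      rw [← mul_add]
      congr 1
      rw [pow_succ]
      field_simp
      ring
    linarith

lemma lam_le (K : ℝ) (hK : 0 ≤ K) : ∃ s1 : ℕ, ∀ s : ℕ, s1 ≤ s → ∀ y : ℕ,
    ∑ p ∈ Pr s y, 2 * K / ((p : ℝ) * Real.log p) ≤ 1 := by
  obtain ⟨E, hE, H⟩ := tower_sum
  obtain ⟨j, hj⟩ : ∃ j : ℕ, 2 * K * (E * 2) ≤ (j : ℝ) := exists_nat_ge _
  refine ⟨2 ^ 2 ^ j, ?_⟩
  intro s hs y
  have hnn : ∀ p : ℕ, (0 : ℝ) ≤ 1 / ((p : ℝ) * Real.log p) := by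
    intro p
    have : 0 ≤ Real.log p := Real.log_natCast_nonneg p
    positivity
  have h0 : ∑ p ∈ Pr s y, 2 * K / ((p : ℝ) * Real.log p) =
      2 * K * ∑ p ∈ Pr s y, 1 / ((p : ℝ) * Real.log p) := by
    rw [mul_sum]
    apply sum_congr rfl
    intro p _
    ring
  rw [h0]
  have h1 : ∑ p ∈ Pr s y, 1 / ((p : ℝ) * Real.log p) ≤
      ∑ p ∈ Pr (2 ^ 2 ^ j) (2 ^ 2 ^ (j + y)), 1 / ((p : ℝ) * Real.log p) := by
    apply sum_le_sum_of_subset_of_nonneg
    · intro p hp
      rw [Pr_mem] at hp ⊢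
      refine ⟨⟨by omega, ?_⟩, hp.2⟩
      have h2 : y < 2 ^ y := Nat.lt_two_pow_self
      have h3 : 2 ^ y < 2 ^ 2 ^ y := Nat.pow_lt_pow_right (by norm_num) h2
      have h4 : 2 ^ 2 ^ y ≤ 2 ^ 2 ^ (j + y) := Nat.pow_le_pow_right (by norm_num)
        (Nat.pow_le_pow_right (by norm_num) (by omega))
      omega
    · intro p _ _
      exact hnn p
  have h2 := H j (j + y) (by omega)
  have h3 : E * (2 / 2 ^ j - 2 / 2 ^ (j + y)) ≤ E * (2 / 2 ^ j) := by
    apply mul_le_mul_of_nonneg_left _ hE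
    have : (0 : ℝ) ≤ 2 / 2 ^ (j + y) := by positivity
    linarith
  have h4 : (j : ℝ) ≤ 2 ^ j := by exact_mod_cast Nat.lt_two_pow_self.le
  calc 2 * K * ∑ p ∈ Pr s y, 1 / ((p : ℝ) * Real.log p) ≤ 2 * K * (E * (2 / 2 ^ j)) :=
        mul_le_mul_of_nonneg_left (by linarith) (by linarith)
    _ = 2 * K * (E * 2) / 2 ^ j := by ring
    _ ≤ 1 := by
        rw [div_le_one (by positivity)]
        linarith

/-- **Jensen** -/
lemma jen (K : ℝ) (hK : 0 < K) : ∃ s1 : ℕ, ∀ s : ℕ, s1 ≤ s → ∀ y : ℕ, ∀ Q ⊆ Pr s y,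
    Real.exp (∑ p ∈ Q, K / (p : ℝ)) ≤ 1 + ∑ p ∈ Q, 1 / Real.sqrt p := by
  obtain ⟨s1, H⟩ := lam_le K hK.le
  obtain ⟨s2, hs2⟩ : ∃ s2 : ℕ, Real.exp (2 * K) ≤ s2 := exists_nat_ge _
  refine ⟨s1 + s2 + 3, ?_⟩
  intro s hs y Q hQ
  have hpr : ∀ p ∈ Q, (3 : ℝ) < p ∧ 2 * K ≤ Real.log p := by
    intro p hp
    have h1 := (Pr_mem.1 (hQ hp)).1.1
    refine ⟨by exact_mod_cast (by omega : 3 < p), ?_⟩
    have h2 : (s2 : ℝ) ≤ p := by exact_mod_cast (by omega : s2 ≤ p)
    rw [Real.le_log_iff_exp_le (by exact_mod_cast (by omega : 0 < p))]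
    linarith
  set lam : ℕ → ℝ := fun p => 2 * K / ((p : ℝ) * Real.log p) with hlam
  have hlam0 : ∀ p ∈ Q, 0 < lam p := by
    intro p hp
    obtain ⟨h1, h2⟩ := hpr p hp
    have : 0 < Real.log p := by linarith
    simp only [hlam]
    positivity
  have hsum : ∑ p ∈ Q, lam p ≤ 1 := by
    refine le_trans ?_ (H s (by omega) y)
    apply sum_le_sum_of_subset_of_nonneg hQ
    intro p _ _
    have : 0 ≤ Real.log p := Real.log_natCast_nonneg p
    positivity
  have h0 : (0 : ℕ) ∉ Q := by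
    intro h
    have := (hpr 0 h).1
    norm_num at this
  -- weights
  set w : ℕ → ℝ := fun p => if p = 0 then 1 - ∑ p ∈ Q, lam p else lam p with hw
  set v : ℕ → ℝ := fun p => if p = 0 then 0 else K / p / lam p with hv
  have hws : ∑ p ∈ insert 0 Q, w p = 1 := by
    rw [sum_insert h0]
    have : ∑ p ∈ Q, w p = ∑ p ∈ Q, lam p := by
      apply sum_congr rfl
      intro p hp
      have : p ≠ 0 := fun h => h0 (h ▸ hp)
      simp [hw, this]
    rw [this]
    simp [hw]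
  have hw0 : ∀ p ∈ insert 0 Q, 0 ≤ w p := by
    intro p hp
    simp only [hw]
    split_ifs with h
    · linarith
    · rcases mem_insert.1 hp with h' | h'
      · exact absurd h' h
      · exact (hlam0 p h').le
  have hconv := convexOn_exp.map_sum_le (t := insert 0 Q) (w := w) (p := v) hw0 hws
    (fun i _ => Set.mem_univ _)
  rw [sum_insert h0, sum_insert h0] at hconv
  have e1 : ∑ p ∈ Q, w p • v p = ∑ p ∈ Q, K / (p : ℝ) := by
    apply sum_congr rfl
    intro p hp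
    have : p ≠ 0 := fun h => h0 (h ▸ hp)
    have h1 := hlam0 p hp
    simp only [hw, hv, this, if_false, smul_eq_mul]
    field_simp
  have e2 : ∑ p ∈ Q, w p • Real.exp (v p) ≤ ∑ p ∈ Q, 1 / Real.sqrt p := by
    apply sum_le_sum
    intro p hp
    have hne : p ≠ 0 := fun h => h0 (h ▸ hp)
    obtain ⟨h1, h2⟩ := hpr p hp
    have hlp : 0 < Real.log p := by linarith
    have hp0 : (0 : ℝ) < p := by linarith
    simp only [hw, hv, hne, if_false, smul_eq_mul, hlam]
    have h3 : K / p / (2 * K / ((p : ℝ) * Real.log p)) = Real.log p * (1 / 2) := by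
      field_simp
    have h4 : Real.exp (Real.log p * (1 / 2)) = Real.sqrt p := by
      rw [← Real.rpow_def_of_pos hp0, Real.sqrt_eq_rpow]
    rw [h3, h4]
    have hsq : Real.sqrt p * Real.sqrt p = p := Real.mul_self_sqrt hp0.le
    have hsq0 : 0 < Real.sqrt p := Real.sqrt_pos.2 hp0
    rw [div_mul_eq_mul_div, div_le_div_iff₀ (by positivity) hsq0, one_mul]
    calc 2 * K * Real.sqrt p * Real.sqrt p = 2 * K * (Real.sqrt p * Real.sqrt p) := by ring
      _ = p * (2 * K) := by rw [hsq]; ring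
      _ ≤ p * Real.log p := mul_le_mul_of_nonneg_left h2 hp0.le
  have e3 : w 0 • v 0 = 0 := by simp [hv]
  have e4 : w 0 • Real.exp (v 0) ≤ 1 := by
    simp only [hw, hv, if_true, smul_eq_mul, Real.exp_zero, mul_one]
    have : 0 ≤ ∑ p ∈ Q, lam p := sum_nonneg fun p hp => (hlam0 p hp).le
    linarith
  rw [e3, zero_add, e1] at hconv
  linarith

end Pool.Agent.Q107.GB
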