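import Pool.Agent.Q102.GG.Lower
import Pool.Agent.Y843.HS.PartA

set_option autoImplicit false

/-!
# Sieve bounds of the right order, in both directions
-/

namespace Pool.Agent.Q107.GB

open Finset Pool.Agent.Y843.HS Pool.Agent.Q102.GG

/-- `∏ (1 - |Om p| / p)` over the primes of `(s, y]` -/
noncomputable def PP (Om : ℕ → Finset ℕ) (s y : ℕ) : ℝ := ∏ p ∈ Pr s y, (1 - ((Om p).card : ℝ) / p)

theorem core : ∃ s0 : ℕ, ∀ s : ℕ, s0 ≤ s → ∃ C : ℕ, 1 ≤ C ∧ ∀ (y X A D a : ℕ) (Om : ℕ → Finset ℕ),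
    (∀ p ∈ Pr s y, (Om p).card ≤ 5 ∧ ∀ c ∈ Om p, c < p) → 1 ≤ D →
    (∀ p : ℕ, p.Prime → s < p → ¬ p ∣ D) → C * (y + 2) ^ C * D ≤ X →
    ∀ T : Finset ℕ, (∀ x, x ∈ T ↔ (A < x ∧ x ≤ A + X) ∧ x % D = a % D ∧ ∀ p ∈ Pr s y, x % p ∉ Om p) →
      (1 / 4) * ((X : ℝ) / D) * PP Om s y ≤ T.card ∧ (T.card : ℝ) ≤ 2 * ((X : ℝ) / D) * PP Om s y := by
  classical
  obtain ⟨C0, hC0, H⟩ := Pool.Agent.Y151.HS.flc
  refine ⟨C0 * 6 + 10, ?_⟩
  intro s hs0
  have hs6 : C0 * (5 + 1) ≤ s := by omega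
  refine ⟨4 + 2 * (C0 * s + 10), by omega, ?_⟩
  intro y X A D a Om hOm hD hDp hX T hT
  obtain ⟨J, hJ1, hJ2⟩ := exists_scale y
  set z : ℕ := 2 ^ 2 ^ J with hz
  set Om' : ℕ → Finset ℕ := fun p => if p ≤ y then Om p else ∅ with hOm'
  have hSv : Sv 5 s z Om' := by
    intro p hp
    have hp' := Pr_mem.1 hp
    simp only [hOm']
    split_ifs with h4
    · exact hOm p (Pr_mem.2 ⟨⟨hp'.1.1, h4⟩, hp'.2⟩)
    · simp
  have hpD : ∀ p ∈ Pr s z, ¬ p ∣ D := fun p hp => hDp p (Pr_mem.1 hp).2 (Pr_mem.1 hp).1.1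
  have hmain := H 5 s s J hs6 hs6 Om' hSv D a A X hD hpD
  have hprod : ∏ p ∈ Pr s (2 ^ 2 ^ J), (1 - ((Om' p).card : ℝ) / p) = PP Om s y := by
    unfold PP
    have hsub : Pr s y ⊆ Pr s (2 ^ 2 ^ J) := by
      intro p hp
      rw [Pr_mem] at hp ⊢
      exact ⟨⟨hp.1.1, hp.1.2.trans hJ1⟩, hp.2⟩
    rw [← prod_subset hsub]
    · apply prod_congr rfl
      intro p hp
      have := (Pr_mem.1 hp).1.2
      simp [hOm', this]
    · intro p hp hp2
      have h1 := Pr_mem.1 hp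
      have : ¬ p ≤ y := fun h => hp2 (Pr_mem.2 ⟨⟨h1.1.1, h⟩, h1.2⟩)
      simp [hOm', this]
  have hTeq : ∀ inst : DecidablePred (fun x => x % D = a % D ∧
      ∀ p ∈ Pr s (2 ^ 2 ^ J), x % p ∉ Om' p), @Finset.filter ℕ (fun x => x % D = a % D ∧
      ∀ p ∈ Pr s (2 ^ 2 ^ J), x % p ∉ Om' p) inst (Ioc A (A + X)) = T := by
    intro inst
    ext x
    rw [mem_filter, mem_Ioc, hT]
    constructor
    · rintro ⟨h1, h2, h3⟩
      refine ⟨h1, h2, ?_⟩
      intro p hp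
      have hp' := Pr_mem.1 hp
      have := h3 p (Pr_mem.2 ⟨⟨hp'.1.1, hp'.1.2.trans hJ1⟩, hp'.2⟩)
      simpa [hOm', hp'.1.2] using this
    · rintro ⟨h1, h2, h3⟩
      refine ⟨h1, h2, ?_⟩
      intro p hp
      have hp' := Pr_mem.1 hp
      simp only [hOm']
      split_ifs with h4
      · exact h3 p (Pr_mem.2 ⟨⟨hp'.1.1, h4⟩, hp'.2⟩)
      · simp
  rw [hTeq, hprod] at hmain
  have hVV : 1 / EE s z ^ (2 * 5) ≤ PP Om s y := by
    have := VV_ge (r := 5) (a := s) (b := z) (by omega) hSv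
    unfold VV at this
    rw [hprod] at this
    exact this
  have hz1 : 1 ≤ z := Nat.one_le_two_pow
  have hEE : EE s z ≤ z := EE_le_nat hz1
  have hE1 := one_le_EE s z
  have hzR : ((2 : ℝ) ^ 2 ^ J) = z := by rw [hz]; push_cast; rfl
  have hz1R : (1 : ℝ) ≤ z := by exact_mod_cast hz1
  have hP : 1 / (z : ℝ) ^ 10 ≤ PP Om s y := by
    refine le_trans ?_ hVV
    apply one_div_le_one_div_of_le (by positivity)
    exact pow_le_pow_left₀ (by linarith) hEE _
  have hDR : (0 : ℝ) < D := by exact_mod_cast hD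
  have hP0 : 0 < PP Om s y := lt_of_lt_of_le (by positivity) hP
  have hz2 : (z : ℝ) ≤ ((y : ℝ) + 2) ^ 2 := by exact_mod_cast hJ2
  have hy2 : (1 : ℝ) ≤ (y : ℝ) + 2 := by
    have : (0 : ℝ) ≤ y := Nat.cast_nonneg y
    linarith
  have hXR : (((4 + 2 * (C0 * s + 10) : ℕ) : ℝ)) * ((y : ℝ) + 2) ^ (4 + 2 * (C0 * s + 10)) * D ≤ X := by
    exact_mod_cast hX
  have herr : (z : ℝ) ^ (C0 * s) ≤ (1 / 4) * ((X : ℝ) / D) * PP Om s y := by
    have h1 : (z : ℝ) ^ (C0 * s + 10) * 4 * D ≤ X := by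
      refine le_trans ?_ hXR
      apply mul_le_mul_of_nonneg_right _ hDR.le
      rw [mul_comm]
      apply mul_le_mul
      · push_cast
        have : (0 : ℝ) ≤ (C0 : ℝ) * s := by positivity
        linarith
      · calc (z : ℝ) ^ (C0 * s + 10) ≤ (((y : ℝ) + 2) ^ 2) ^ (C0 * s + 10) :=
            pow_le_pow_left₀ (by linarith) hz2 _
          _ = ((y : ℝ) + 2) ^ (2 * (C0 * s + 10)) := by rw [pow_mul]
          _ ≤ ((y : ℝ) + 2) ^ (4 + 2 * (C0 * s + 10)) := pow_le_pow_right₀ hy2 (by omega)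
      · positivity
      · positivity
    have h2 : (1 / 4) * ((X : ℝ) / D) * (1 / (z : ℝ) ^ 10) ≤ (1 / 4) * ((X : ℝ) / D) * PP Om s y :=
      mul_le_mul_of_nonneg_left hP (by positivity)
    refine le_trans ?_ h2
    have h3 : (1 / 4) * ((X : ℝ) / D) * (1 / (z : ℝ) ^ 10) = X / (4 * D * (z : ℝ) ^ 10) := by
      field_simp
    rw [h3, le_div_iff₀ (by positivity)]
    calc (z : ℝ) ^ (C0 * s) * (4 * D * (z : ℝ) ^ 10) = (z : ℝ) ^ (C0 * s + 10) * 4 * D := by
          rw [pow_add]; ring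
      _ ≤ X := h1
  have hhalf : (1 / 2 : ℝ) ^ s ≤ 1 / 2 := by
    calc (1 / 2 : ℝ) ^ s ≤ (1 / 2 : ℝ) ^ 1 :=
          pow_le_pow_of_le_one (by norm_num) (by norm_num) (by omega)
      _ = 1 / 2 := by norm_num
  rw [hzR] at hmain
  have hXP : 0 ≤ (X : ℝ) / D * PP Om s y := by positivity
  have h5 : (1 / 2 : ℝ) ^ s * ((X : ℝ) / D * PP Om s y) ≤ 1 / 2 * ((X : ℝ) / D * PP Om s y) :=
    mul_le_mul_of_nonneg_right hhalf hXP
  obtain ⟨h6, h7⟩ := abs_le.1 hmain
  constructor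
  · linarith
  · linarith

/-- the residues of the integers of `S` modulo `p` -/
def rs (S : Finset ℤ) (p : ℕ) : Finset ℕ := S.image (fun c : ℤ => (c % (p : ℤ)).toNat)

lemma mem_rs {S : Finset ℤ} {p x : ℕ} (hp : 0 < p) : x % p ∈ rs S p ↔ ∃ c ∈ S, (p : ℤ) ∣ (x : ℤ) - c := by
  have hp0 : (p : ℤ) ≠ 0 := by exact_mod_cast hp.ne'
  unfold rs
  rw [mem_image]
  constructor
  · rintro ⟨c, hc, h⟩
    refine ⟨c, hc, ?_⟩
    have h1 : (0 : ℤ) ≤ c % p := Int.emod_nonneg _ hp0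
    have h2 : ((c % (p : ℤ)).toNat : ℤ) = ((x % p : ℕ) : ℤ) := by rw [h]
    rw [Int.toNat_of_nonneg h1] at h2
    push_cast at h2
    exact Int.ModEq.dvd h2
  · rintro ⟨c, hc, h⟩
    refine ⟨c, hc, ?_⟩
    have h1 : c % p = (x : ℤ) % p := Int.modEq_iff_dvd.2 h
    rw [h1]
    have h2 : (x : ℤ) % (p : ℤ) = ((x % p : ℕ) : ℤ) := by push_cast; rfl
    rw [h2]
    exact Int.toNat_natCast _

lemma rs_lt {S : Finset ℤ} {p c : ℕ} (hp : 0 < p) (h : c ∈ rs S p) : c < p := by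
  unfold rs at h
  rw [mem_image] at h
  obtain ⟨d, -, rfl⟩ := h
  have hp0 : (0 : ℤ) < p := by exact_mod_cast hp
  have h1 : (0 : ℤ) ≤ d % p := Int.emod_nonneg _ hp0.ne'
  have h2 : d % p < p := Int.emod_lt_of_pos _ hp0
  omega

lemma rs_card {S : Finset ℤ} {p : ℕ} : (rs S p).card ≤ S.card := card_image_le

lemma rs_mono {S S' : Finset ℤ} (h : S ⊆ S') (p : ℕ) : rs S p ⊆ rs S' p := image_subset_image h

lemma PP_pos {S : Finset ℤ} {s y : ℕ} (hs : S.card ≤ s) : 0 < PP (rs S) s y := by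
  apply prod_pos
  intro p hp
  have h1 := (Pr_mem.1 hp).1.1
  have h0 : (0 : ℝ) < p := by exact_mod_cast (by omega : 0 < p)
  rw [sub_pos, div_lt_one h0]
  have : (rs S p).card ≤ S.card := rs_card
  exact_mod_cast (by omega : (rs S p).card < p)

/-- the lower bound -/
theorem lowS : ∃ s0 : ℕ, ∀ s : ℕ, s0 ≤ s → ∃ C : ℕ, 1 ≤ C ∧ ∃ c0 : ℝ, 0 < c0 ∧
    ∀ (y X r : ℕ) (S : Finset ℤ), S.card ≤ 4 → C * (y + 2) ^ C ≤ X →
    ∃ T : Finset ℕ, T ⊆ Icc 1 X ∧ c0 * X * PP (rs S) s y ≤ T.card ∧ ∀ x ∈ T, x % 12 = r % 12 ∧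
      ∀ c ∈ S, ∀ p : ℕ, p.Prime → 5 ≤ p → p ≤ y → ¬ (p : ℤ) ∣ (x : ℤ) - c := by
  classical
  obtain ⟨s0, H⟩ := core
  refine ⟨s0 + 5, ?_⟩
  intro s hs0
  obtain ⟨C, hC, H⟩ := H s (by omega)
  set t : Finset ℕ := insert 12 ((Icc 5 s).filter Nat.Prime) with ht
  set D : ℕ := ∏ i ∈ t, i with hD
  have htpos : ∀ i ∈ t, i ≠ 0 := by
    intro i hi
    rw [ht, mem_insert, mem_filter] at hi
    rcases hi with rfl | hi
    · norm_num
    · exact hi.2.ne_zero
  have hD1 : 1 ≤ D := Nat.pos_of_ne_zero (prod_ne_zero_iff.2 htpos)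
  have hDR : (0 : ℝ) < D := by exact_mod_cast hD1
  refine ⟨C * D, Nat.mul_pos hC hD1, 1 / (4 * D), by positivity, ?_⟩
  intro y X r S hS hX
  have hX' : C * (y + 2) ^ C * D ≤ X := by
    refine le_trans ?_ hX
    have h1 : (y + 2) ^ C ≤ (y + 2) ^ (C * D) :=
      Nat.pow_le_pow_right (by omega) (Nat.le_mul_of_pos_right _ hD1)
    calc C * (y + 2) ^ C * D = C * D * (y + 2) ^ C := by ring
      _ ≤ C * D * (y + 2) ^ (C * D) := Nat.mul_le_mul_left _ h1
  -- residues modulo the small primes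
  have hres : ∀ p : ℕ, ∃ c : ℕ, p.Prime → 5 ≤ p → (p ≤ y → c % p ∉ rs S p) := by
    intro p
    by_cases hp : p.Prime ∧ 5 ≤ p ∧ p ≤ y
    · obtain ⟨hp1, hp2, hp3⟩ := hp
      have hlt : (rs S p).card < (range p).card := by
        rw [card_range]
        have : (rs S p).card ≤ S.card := rs_card
        omega
      obtain ⟨c, hc1, hc2⟩ := exists_mem_notMem_of_card_lt_card hlt
      rw [mem_range] at hc1
      exact ⟨c, fun _ _ _ => by rwa [Nat.mod_eq_of_lt hc1]⟩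
    · exact ⟨0, fun h1 h2 h3 => absurd ⟨h1, h2, h3⟩ hp⟩
  choose c hc using hres
  have hpp : Set.Pairwise (t : Set ℕ) (Function.onFun Nat.Coprime id) := by
    intro i hi j hj hij
    rw [mem_coe, ht, mem_insert, mem_filter, mem_Icc] at hi hj
    simp only [Function.onFun, id]
    have h12 : ∀ q : ℕ, q.Prime → 5 ≤ q → Nat.Coprime 12 q := by
      intro q hq hq5
      rw [Nat.coprime_comm, hq.coprime_iff_not_dvd]
      intro hd
      have h3 := Nat.le_of_dvd (by norm_num) hd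
      interval_cases q <;> first | omega | (revert hq; norm_num)
    rcases hi with rfl | hi <;> rcases hj with rfl | hj
    · exact absurd rfl hij
    · exact h12 j hj.2 hj.1.1
    · exact (h12 i hi.2 hi.1.1).symm
    · exact (Nat.coprime_primes hi.2 hj.2).2 hij
  obtain ⟨a, ha⟩ := Nat.chineseRemainderOfFinset (fun i => if i = 12 then r else c i) id t htpos hpp
  have ha12 : a % 12 = r % 12 := by
    have := ha 12 (by rw [ht]; exact mem_insert_self _ _)
    simpa [Nat.ModEq] using this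
  have hap : ∀ p : ℕ, p.Prime → 5 ≤ p → p ≤ s → p ≤ y → a % p ∉ rs S p := by
    intro p hp hp5 hps hpy
    have h1 := ha p (by
      rw [ht, mem_insert, mem_filter, mem_Icc]
      exact Or.inr ⟨⟨hp5, hps⟩, hp⟩)
    have hne : p ≠ 12 := by
      rintro rfl
      revert hp
      norm_num
    simp only [hne, if_false, id] at h1
    have h2 : a % p = c p % p := h1
    rw [h2]
    exact hc p hp hp5 hpy
  have hpD : ∀ p : ℕ, p.Prime → s < p → ¬ p ∣ D := by
    intro p h1 h2 hd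
    rw [hD, h1.prime.dvd_finsetProd_iff] at hd
    obtain ⟨i, hi, hpi⟩ := hd
    rw [ht, mem_insert, mem_filter, mem_Icc] at hi
    rcases hi with rfl | hi
    · have h4 := Nat.le_of_dvd (by norm_num) hpi
      interval_cases p <;> first | omega | (revert h1; norm_num)
    · have := (Nat.prime_dvd_prime_iff_eq h1 hi.2).1 hpi
      omega
  set T : Finset ℕ := (Ioc 0 (0 + X)).filter (fun x => x % D = a % D ∧
      ∀ p ∈ Pr s y, x % p ∉ rs S p) with hT
  have hmain := (H y X 0 D a (rs S) (fun p hp => ⟨rs_card.trans (by omega),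
    fun c hc => rs_lt (Pr_mem.1 hp).2.pos hc⟩) hD1 hpD hX' T (fun x => by
      rw [hT, mem_filter, mem_Ioc])).1
  refine ⟨T, ?_, ?_, ?_⟩
  · intro x hx
    have hx' := mem_aux hx
    have hx1 := mem_Ioc.1 hx'.1
    rw [mem_Icc]
    omega
  · refine le_trans (le_of_eq ?_) hmain
    field_simp
  · intro x hx
    obtain ⟨-, hxD, hxp⟩ := mem_aux hx
    have hmod : ∀ i ∈ t, x % i = a % i := by
      intro i hi
      have hdvd : i ∣ D := dvd_prod_of_mem _ hi
      have h1 : x ≡ a [MOD D] := hxD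
      exact h1.of_dvd hdvd
    constructor
    · rw [hmod 12 (by rw [ht]; exact mem_insert_self _ _), ha12]
    · intro e he p hp hp5 hpy hdvd
      have hin : x % p ∈ rs S p := (mem_rs hp.pos).2 ⟨e, he, hdvd⟩
      rcases Nat.lt_or_ge s p with hps | hps
      · exact hxp p (Pr_mem.2 ⟨⟨hps, hpy⟩, hp⟩) hin
      · rw [hmod p (by
          rw [ht, mem_insert, mem_filter, mem_Icc]
          exact Or.inr ⟨⟨hp5, hps⟩, hp⟩)] at hin
        exact hap p hp hp5 hps hpy hin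

/-- the upper bound -/
theorem upS : ∃ s0 : ℕ, ∀ s : ℕ, s0 ≤ s → ∃ C : ℕ, 1 ≤ C ∧
    ∀ (y X : ℕ) (S : Finset ℤ), S.card ≤ 5 → C * (y + 2) ^ C ≤ X → ∀ T : Finset ℕ, T ⊆ Icc 1 X →
      (∀ x ∈ T, ∀ c ∈ S, ∀ p ∈ Pr s y, ¬ (p : ℤ) ∣ (x : ℤ) - c) →
      (T.card : ℝ) ≤ 2 * X * PP (rs S) s y := by
  classical
  obtain ⟨s0, H⟩ := core
  refine ⟨s0, ?_⟩
  intro s hs0
  obtain ⟨C, hC, H⟩ := H s hs0
  refine ⟨C, hC, ?_⟩
  intro y X S hS hX T hT hTS
  set T' : Finset ℕ := (Ioc 0 (0 + X)).filter (fun x => x % 1 = 0 % 1 ∧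
      ∀ p ∈ Pr s y, x % p ∉ rs S p) with hT'
  have hmain := (H y X 0 1 0 (rs S) (fun p hp => ⟨rs_card.trans (by omega),
    fun c hc => rs_lt (Pr_mem.1 hp).2.pos hc⟩) le_rfl (fun p hp _ h => hp.one_lt.ne' (Nat.dvd_one.1 h))
    (by rw [mul_one]; exact hX) T' (fun x => by rw [hT', mem_filter, mem_Ioc])).2
  have hsub : T ⊆ T' := by
    intro x hx
    have h1 := mem_Icc.1 (hT hx)
    rw [hT', mem_filter, mem_Ioc]
    refine ⟨⟨by omega, by omega⟩, by simp [Nat.mod_one], ?_⟩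
    intro p hp hin
    obtain ⟨c, hc, hd⟩ := (mem_rs (Pr_mem.1 hp).2.pos).1 hin
    exact hTS x hx c hc p hp hd
  have h2 : (T.card : ℝ) ≤ T'.card := by exact_mod_cast card_le_card hsub
  refine h2.trans (hmain.trans (le_of_eq ?_))
  simp

lemma mem_rsZ {S : Finset ℤ} {p : ℕ} (hp : 0 < p) (z : ℤ) :
    (z % (p : ℤ)).toNat ∈ rs S p ↔ ∃ c ∈ S, (p : ℤ) ∣ z - c := by
  have hp0 : (p : ℤ) ≠ 0 := by exact_mod_cast hp.ne'
  have h1 : (0 : ℤ) ≤ z % p := Int.emod_nonneg _ hp0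
  unfold rs
  rw [mem_image]
  constructor
  · rintro ⟨c, hc, h⟩
    refine ⟨c, hc, ?_⟩
    have h2 : (0 : ℤ) ≤ c % p := Int.emod_nonneg _ hp0
    have h3 : c % (p : ℤ) = z % p := by
      have : ((c % (p : ℤ)).toNat : ℤ) = ((z % (p : ℤ)).toNat : ℤ) := by rw [h]
      rwa [Int.toNat_of_nonneg h1, Int.toNat_of_nonneg h2] at this
    exact Int.ModEq.dvd h3
  · rintro ⟨c, hc, h⟩
    refine ⟨c, hc, ?_⟩
    have h1 : c % (p : ℤ) = z % p := Int.modEq_iff_dvd.2 h
    rw [h1]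

lemma card_pull {S : Finset ℤ} {p q : ℕ} (r : ℤ) (hp : p.Prime) (hq : q.Prime) (hpq : p ≠ q) :
    ((range p).filter (fun m : ℕ => ((r + q * ((m : ℤ) - 1)) % (p : ℤ)).toNat ∈ rs S p)).card =
      (rs S p).card := by
  have hp0 : (0 : ℤ) < p := by exact_mod_cast hp.pos
  set g : ℕ → ℕ := fun m => ((r + q * ((m : ℤ) - 1)) % (p : ℤ)).toNat with hg
  have hgv : ∀ m, (g m : ℤ) = (r + q * ((m : ℤ) - 1)) % (p : ℤ) := fun m =>
    Int.toNat_of_nonneg (Int.emod_nonneg _ hp0.ne')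
  have hinj : Set.InjOn g (range p : Finset ℕ) := by
    intro a ha b hb hab
    rw [mem_coe, mem_range] at ha hb
    have h1 : (r + q * ((a : ℤ) - 1)) % (p : ℤ) = (r + q * ((b : ℤ) - 1)) % (p : ℤ) := by
      rw [← hgv, ← hgv, hab]
    have h2 : (p : ℤ) ∣ (r + q * ((b : ℤ) - 1)) - (r + q * ((a : ℤ) - 1)) := Int.ModEq.dvd h1
    have h3 : (r + q * ((b : ℤ) - 1)) - (r + q * ((a : ℤ) - 1)) = q * ((b : ℤ) - a) := by ring
    rw [h3] at h2
    have h4 : (p : ℤ) ∣ (b : ℤ) - a := by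
      rcases (Nat.prime_iff_prime_int.1 hp).dvd_or_dvd h2 with h | h
      · exfalso
        have h5 : p ∣ q := by exact_mod_cast h
        exact hpq ((Nat.prime_dvd_prime_iff_eq hp hq).1 h5)
      · exact h
    obtain ⟨k, hk⟩ := h4
    have : k = 0 := by
      rcases lt_trichotomy k 0 with h | h | h
      · nlinarith
      · exact h
      · nlinarith
    subst this
    omega
  have hmaps : (range p).image g ⊆ range p := by
    intro c hc
    rw [mem_image] at hc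
    obtain ⟨m, -, rfl⟩ := hc
    rw [mem_range]
    have h2 : (r + q * ((m : ℤ) - 1)) % (p : ℤ) < p := Int.emod_lt_of_pos _ hp0
    have := hgv m
    omega
  have himg : (range p).image g = range p := by
    apply eq_of_subset_of_card_le hmaps
    rw [card_image_of_injOn hinj]
  have h5 : ((range p).filter (fun m => g m ∈ rs S p)).image g = rs S p := by
    ext c
    rw [mem_image]
    constructor
    · rintro ⟨m, hm, rfl⟩
      exact (mem_filter.1 hm).2
    · intro hc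
      have h6 : c ∈ (range p).image g := by
        rw [himg, mem_range]
        exact rs_lt hp.pos hc
      rw [mem_image] at h6
      obtain ⟨m, hm, rfl⟩ := h6
      exact ⟨m, mem_filter.2 ⟨hm, hc⟩, rfl⟩
  have h7 : (((range p).filter (fun m => g m ∈ rs S p)).image g).card =
      ((range p).filter (fun m => g m ∈ rs S p)).card := card_image_of_injOn (hinj.mono (by
    intro m hm
    exact (mem_filter.1 (mem_coe.1 hm)).1))
  rw [h5] at h7
  exact h7.symm

/-- the upper bound for a class modulo a prime -/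
theorem apS : ∃ s0 : ℕ, ∀ s : ℕ, s0 ≤ s → ∃ C : ℕ, 1 ≤ C ∧
    ∀ (y X q : ℕ) (τ : ℤ) (S : Finset ℤ), S.card ≤ 4 → C * (y + 2) ^ C ≤ X → q ∈ Pr s y →
      ∀ T : Finset ℕ, T ⊆ Icc 1 X → (∀ x ∈ T, (q : ℤ) ∣ (x : ℤ) - τ) →
      (∀ x ∈ T, ∀ c ∈ S, ∀ p ∈ Pr s y, ¬ (p : ℤ) ∣ (x : ℤ) - c) →
      (T.card : ℝ) ≤ 8 / q * X * PP (rs S) s y := by
  classical
  obtain ⟨s0, H⟩ := core
  refine ⟨s0 + 8, ?_⟩
  intro s hs0
  obtain ⟨C, hC, H⟩ := H s (by omega)
  refine ⟨C + 1, by omega, ?_⟩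
  intro y X q τ S hS hX hq T hT hTq hTS
  obtain ⟨⟨hsq, hqy⟩, hqp⟩ := Pr_mem.1 hq
  have hq0 : (0 : ℤ) < q := by exact_mod_cast hqp.pos
  have hqX : q * (C * (y + 2) ^ C) ≤ X := by
    refine le_trans ?_ hX
    calc q * (C * (y + 2) ^ C) ≤ (y + 2) * (C * (y + 2) ^ C) := Nat.mul_le_mul_right _ (by omega)
      _ = C * (y + 2) ^ (C + 1) := by ring
      _ ≤ (C + 1) * (y + 2) ^ (C + 1) := Nat.mul_le_mul_right _ (by omega)
  have hqX1 : q ≤ X := by
    refine le_trans ?_ hqX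
    apply Nat.le_mul_of_pos_right
    positivity
  set r : ℤ := τ % q with hr
  have hr0 : 0 ≤ r := Int.emod_nonneg _ hq0.ne'
  have hr1 : r < q := Int.emod_lt_of_pos _ hq0
  set Om : ℕ → Finset ℕ := fun p => if p = q then ∅ else
    (range p).filter (fun m : ℕ => ((r + q * ((m : ℤ) - 1)) % (p : ℤ)).toNat ∈ rs S p) with hOm
  have hxr : ∀ x ∈ T, (x : ℤ) = r + q * ((x / q : ℕ) : ℤ) := by
    intro x hx
    have h1 := hTq x hx
    have h2 : (x : ℤ) % q = r := (Int.modEq_iff_dvd.2 h1).symm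
    have h3 := Int.emod_add_mul_ediv (x : ℤ) q
    rw [h2] at h3
    rw [← h3]
    push_cast
    rw [h3]
  set T' : Finset ℕ := (Ioc 0 (0 + (X / q + 1))).filter (fun x => x % 1 = 0 % 1 ∧
      ∀ p ∈ Pr s y, x % p ∉ Om p) with hT'
  have hmain := (H y (X / q + 1) 0 1 0 Om (by
      intro p hp
      obtain ⟨h1, h2⟩ := Pr_mem.1 hp
      simp only [hOm]
      split_ifs with h3
      · simp
      · refine ⟨?_, ?_⟩
        · rw [card_pull r h2 hqp h3]
          exact rs_card.trans (by omega)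
        · intro c hc
          exact mem_range.1 (mem_filter.1 hc).1) le_rfl
    (fun p hp _ h => hp.one_lt.ne' (Nat.dvd_one.1 h))
    (by
      rw [mul_one]
      have : C * (y + 2) ^ C ≤ X / q := by
        rw [Nat.le_div_iff_mul_le hqp.pos, mul_comm]
        exact hqX
      omega) T' (fun x => by rw [hT', mem_filter, mem_Ioc])).2
  have hcard : T.card ≤ T'.card := by
    apply card_le_card_of_injOn (fun x => x / q + 1)
    · intro x hx
      have hx' : x ∈ T := hx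
      have h1 := mem_Icc.1 (hT hx')
      rw [mem_coe, hT', mem_filter, mem_Ioc]
      refine ⟨⟨Nat.succ_pos _, ?_⟩, by simp [Nat.mod_one], ?_⟩
      · rw [zero_add]
        exact Nat.succ_le_succ (Nat.div_le_div_right h1.2)
      · intro p hp
        obtain ⟨h2, h3⟩ := Pr_mem.1 hp
        simp only [hOm]
        split_ifs with h4
        · simp
        · rw [mem_filter]
          rintro ⟨-, h5⟩
          rw [mem_rsZ h3.pos] at h5
          obtain ⟨c, hc, hd⟩ := h5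
          apply hTS x hx' c hc p hp
          have h6 : (p : ℤ) ∣ (q : ℤ) * (((x / q + 1 : ℕ) : ℤ) - (((x / q + 1) % p : ℕ) : ℤ)) := by
            apply Dvd.dvd.mul_left
            have : (((x / q + 1) % p : ℕ) : ℤ) = ((x / q + 1 : ℕ) : ℤ) % p := by push_cast; rfl
            rw [this]
            exact Int.dvd_self_sub_emod
          have h7 : (x : ℤ) - c = (q : ℤ) * (((x / q + 1 : ℕ) : ℤ) - (((x / q + 1) % p : ℕ) : ℤ)) +
              (r + q * ((((x / q + 1) % p : ℕ) : ℤ) - 1) - c) := by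
            rw [hxr x hx']
            push_cast
            ring
          rw [h7]
          exact dvd_add h6 hd
    · intro a ha b hb hab
      have h1 := hxr a ha
      have h2 := hxr b hb
      have h3 : a / q = b / q := by
        have : a / q + 1 = b / q + 1 := hab
        omega
      rw [h3] at h1
      exact_mod_cast h1.trans h2.symm
  have hPP : PP Om s y ≤ 2 * PP (rs S) s y := by
    unfold PP
    rw [← mul_prod_erase _ _ hq, ← mul_prod_erase (Pr s y) (fun p => 1 - ((rs S p).card : ℝ) / p) hq]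
    have h1 : (Om q).card = 0 := by simp [hOm]
    have h2 : ∏ p ∈ (Pr s y).erase q, (1 - ((Om p).card : ℝ) / p) =
        ∏ p ∈ (Pr s y).erase q, (1 - ((rs S p).card : ℝ) / p) := by
      apply prod_congr rfl
      intro p hp
      obtain ⟨h3, h4⟩ := mem_erase.1 hp
      have h5 : (Om p).card = (rs S p).card := by
        simp only [hOm, h3, if_false]
        exact card_pull r (Pr_mem.1 h4).2 hqp h3
      rw [h5]
    rw [h1, h2]
    have h6 : 0 ≤ ∏ p ∈ (Pr s y).erase q, (1 - ((rs S p).card : ℝ) / p) := by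
      apply prod_nonneg
      intro p hp
      obtain ⟨h3, h4⟩ := mem_erase.1 hp
      have h5 := (Pr_mem.1 h4).1.1
      have h0 : (0 : ℝ) < p := by exact_mod_cast (by omega : 0 < p)
      rw [sub_nonneg, div_le_one h0]
      have : (rs S p).card ≤ S.card := rs_card
      exact_mod_cast (by omega : (rs S p).card ≤ p)
    have h7 : (1 : ℝ) / 2 ≤ 1 - ((rs S q).card : ℝ) / q := by
      have h0 : (0 : ℝ) < q := by exact_mod_cast hqp.pos
      have h8 : ((rs S q).card : ℝ) / q ≤ 1 / 2 := by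
        rw [div_le_iff₀ h0]
        have : (rs S q).card ≤ S.card := rs_card
        have : 2 * (rs S q).card ≤ q := by omega
        have : (2 : ℝ) * (rs S q).card ≤ q := by exact_mod_cast this
        linarith
      linarith
    have h9 : (1 / 2 : ℝ) * ∏ p ∈ (Pr s y).erase q, (1 - ((rs S p).card : ℝ) / p) ≤
        (1 - ((rs S q).card : ℝ) / q) * ∏ p ∈ (Pr s y).erase q, (1 - ((rs S p).card : ℝ) / p) :=
      mul_le_mul_of_nonneg_right h7 h6
    have h10 : ((0 : ℕ) : ℝ) = 0 := Nat.cast_zero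
    rw [h10, zero_div, sub_zero, one_mul]
    linarith
  have hq0R : (0 : ℝ) < q := by exact_mod_cast hqp.pos
  have hX' : ((X / q + 1 : ℕ) : ℝ) ≤ 2 * X / q := by
    have h1 : ((X / q : ℕ) : ℝ) ≤ (X : ℝ) / q := Nat.cast_div_le
    have h2 : (1 : ℝ) ≤ (X : ℝ) / q := by
      rw [le_div_iff₀ hq0R, one_mul]
      exact_mod_cast hqX1
    push_cast
    have h3 : 2 * (X : ℝ) / q = (X : ℝ) / q + (X : ℝ) / q := by ring
    rw [h3]
    linarith
  have hP0 : 0 < PP (rs S) s y := PP_pos (by omega)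
  calc (T.card : ℝ) ≤ T'.card := by exact_mod_cast hcard
    _ ≤ 2 * (((X / q + 1 : ℕ) : ℝ) / ((1 : ℕ) : ℝ)) * PP Om s y := hmain
    _ = 2 * ((X / q + 1 : ℕ) : ℝ) * PP Om s y := by simp
    _ ≤ 2 * ((X / q + 1 : ℕ) : ℝ) * (2 * PP (rs S) s y) :=
        mul_le_mul_of_nonneg_left hPP (by positivity)
    _ ≤ 2 * (2 * X / q) * (2 * PP (rs S) s y) := by
        apply mul_le_mul_of_nonneg_right _ (by positivity)
        linarith
    _ = 8 / q * X * PP (rs S) s y := by ring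

end Pool.Agent.Q107.GB
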